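import Pool.Agent.H22.IA.Red

/-!
The traces of isogenous fixed points.
-/

set_option autoImplicit false

namespace Pool.Agent.H22.IA

open UpperHalfPlane H294ZP Function Pool.Agent.N135.ZO

theorem sq_of_mul {n X k : ℤ} (hn : n ≠ 0) (h : n ^ 2 * X = k ^ 2) : IsSquare X := by
  have h1 : n ∣ k := by
    rw [← Int.pow_dvd_pow_iff two_ne_zero, ← h]
    exact dvd_mul_right _ _
  obtain ⟨m, rfl⟩ := h1
  refine ⟨m, ?_⟩
  have h2 : n ^ 2 * X = n ^ 2 * (m * m) := by rw [h]; ring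
  exact mul_left_cancel₀ (pow_ne_zero 2 hn) h2

/-- the real and imaginary part of a fixed point -/
theorem fix_parts {p : ℕ} {τ : ℍ} {M : M2} (hdet : M.det = p)
    (h : N135.ZO.Rel M τ τ) : 2 * (M 1 0 : ℝ) * τ.re = M 0 0 - M 1 1 ∧
      (2 * (M 1 0 : ℝ) * τ.im) ^ 2 = 4 * p - (M.trace : ℝ) ^ 2 := by
  have hq := fix_quad h
  rw [det_eq] at hdet
  rw [Matrix.trace_fin_two]
  generalize M 1 0 = c at hq hdet ⊢
  generalize M 0 0 = a at hq hdet ⊢
  generalize M 0 1 = b at hq hdet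
  generalize M 1 1 = d at hq hdet ⊢
  have hy := τ.im_pos
  have hre := congrArg Complex.re hq
  have him := congrArg Complex.im hq
  have e1 : (τ : ℂ).re = τ.re := rfl
  have e2 : (τ : ℂ).im = τ.im := rfl
  simp only [Complex.add_im, Complex.add_re, Complex.mul_im, Complex.mul_re, Complex.intCast_re,
    Complex.intCast_im, zero_mul, add_zero, sub_zero, Complex.zero_im, Complex.zero_re, sq, e1, e2]
    at hre him
  push_cast at hre him
  generalize τ.re = x at hre him ⊢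
  generalize τ.im = y at hre him hy ⊢
  have hxe : 2 * c * x = a - d := by
    have h3 : y * (2 * c * x + (d - a)) = 0 := by linear_combination him
    have h4 := (mul_eq_zero.1 h3).resolve_left hy.ne'
    linarith
  have hdetR : (a : ℝ) * d - b * c = p := by exact_mod_cast hdet
  refine ⟨hxe, ?_⟩
  have h3 : (2 * c * y) ^ 2 = (2 * c * x) ^ 2 + 4 * c * ((d - a) * x - b) := by
    linear_combination (-4 * (c : ℝ)) * hre
  rw [h3, ← hdetR]
  have h4 : 4 * c * ((d - a) * x - b) = 2 * (d - a) * (2 * c * x) - 4 * b * c := by ring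
  rw [h4, hxe]
  push_cast
  ring

/-- the fields of two related fixed points are equal -/
theorem sq_of_rel {p : ℕ} (hp : p.Prime) {τ w : ℍ} {M M' A : M2} (hM : M.det = p)
    (hM' : M'.det = p) (h : N135.ZO.Rel M τ τ) (h' : N135.ZO.Rel M' w w) (hA : 0 < A.det)
    (hrel : N135.ZO.Rel A τ w) :
    IsSquare ((4 * p - M.trace ^ 2) * (4 * p - M'.trace ^ 2)) := by
  obtain ⟨h1, h2⟩ := fix_parts hM h
  obtain ⟨-, h2'⟩ := fix_parts hM' h'
  have hc := fix_ne hp hM h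
  have hlt := trace_lt hp hM h
  have him : w.im * ((A 1 0 * τ.re + A 1 1) ^ 2 + (A 1 0 * τ.im) ^ 2) = A.det * τ.im := by
    have e0 := hrel
    unfold N135.ZO.Rel den N135.ZO.num at e0
    have hre := congrArg Complex.re e0
    have him := congrArg Complex.im e0
    have e1 : (τ : ℂ).re = τ.re := rfl
    have e2 : (τ : ℂ).im = τ.im := rfl
    have e3 : (w : ℂ).re = w.re := rfl
    have e4 : (w : ℂ).im = w.im := rfl
    simp only [Complex.add_im, Complex.add_re, Complex.mul_im, Complex.mul_re, Complex.intCast_re,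
      Complex.intCast_im, zero_mul, add_zero, sub_zero, e1, e2, e3, e4] at hre him
    rw [det_eq]
    push_cast
    linear_combination (A 1 0 * τ.re + A 1 1) * him - (A 1 0 * τ.im) * hre
  set c := M 1 0 with hcdef
  set c' := M' 1 0
  set a := M 0 0
  set d := M 1 1
  set C := A 1 0
  set D := A 1 1
  set x := τ.re
  set y := τ.im with hy
  set n : ℤ := (C * (a - d) + 2 * c * D) ^ 2 + C ^ 2 * (4 * p - M.trace ^ 2) with hn
  have hn1 : (n : ℝ) = 4 * c ^ 2 * ((C * x + D) ^ 2 + (C * y) ^ 2) := by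
    rw [hn]
    push_cast
    rw [← h1, ← h2]
    ring
  have hpos : 0 < (C * x + D) ^ 2 + (C * y) ^ 2 := by
    have hA' : (0 : ℝ) < A.det := by exact_mod_cast hA
    have h3 : 0 < w.im * ((C * x + D) ^ 2 + (C * y) ^ 2) := by
      rw [him]
      exact mul_pos hA' τ.im_pos
    exact (mul_pos_iff_of_pos_left w.im_pos).1 h3
  have hn0 : n ≠ 0 := by
    intro h0
    rw [h0] at hn1
    have hcR : (c : ℝ) ≠ 0 := by exact_mod_cast hc
    have : 0 < 4 * (c : ℝ) ^ 2 * ((C * x + D) ^ 2 + (C * y) ^ 2) := by positivity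
    rw [← hn1] at this
    simp at this
  refine sq_of_mul (n := n) (k := 4 * c * c' * A.det * (4 * p - M.trace ^ 2)) hn0 ?_
  have h5 : ((n : ℝ)) ^ 2 * ((4 * p - (M.trace : ℝ) ^ 2) * (4 * p - (M'.trace : ℝ) ^ 2)) =
      (4 * c * c' * A.det * (4 * p - (M.trace : ℝ) ^ 2)) ^ 2 := by
    rw [hn1, ← h2, ← h2']
    have h6 : (4 * (c : ℝ) ^ 2 * ((C * x + D) ^ 2 + (C * y) ^ 2)) ^ 2 *
        ((2 * c * y) ^ 2 * (2 * c' * w.im) ^ 2) =
        (4 * c * c' * (w.im * ((C * x + D) ^ 2 + (C * y) ^ 2)) * (4 * c ^ 2 * y)) ^ 2 := by ring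
    rw [h6, him]
    ring
  exact_mod_cast h5

/-- the fields of two isogenous fixed points are equal -/
theorem sq_of_isog {p : ℕ} (hp : p.Prime) {τ w : ℍ} {M M' : M2} (hM : M.det = p)
    (hM' : M'.det = p) (h : N135.ZO.Rel M τ τ) (h' : N135.ZO.Rel M' w w)
    (hI : Isog (jj τ) (jj w)) :
    IsSquare ((4 * p - M.trace ^ 2) * (4 * p - M'.trace ^ 2)) := by
  obtain ⟨B, τ', w', hB, hBrel, h1, h2⟩ := hI
  obtain ⟨B', w'', hB', hB'rel, h3⟩ := transfer h1.symm hB hBrel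
  obtain ⟨g, hg, hgrel⟩ := Pool.Agent.N101.ZP.jj_inj (h3.trans h2)
  refine sq_of_rel hp hM hM' h h' (A := g * B') ?_ (hB'rel.mul hgrel)
  rw [Matrix.det_mul, hg, one_mul]
  exact hB'

/-- there are few traces with the same field -/
theorem class_card {p : ℕ} (hp : p.Prime) (t : ℕ) (ht : (t : ℤ) ^ 2 < 4 * p) :
    ∃ E : Finset ℕ, E.card ≤ 81 ∧ ∀ t' : ℕ, (t' : ℤ) ^ 2 < 4 * p →
      IsSquare ((4 * (p : ℤ) - t ^ 2) * (4 * p - t' ^ 2)) → t' ∈ E := by
  classical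
  obtain ⟨Δ, hΔ⟩ : ∃ Δ : ℕ, (Δ : ℤ) = 4 * p - t ^ 2 := ⟨(4 * (p : ℤ) - t ^ 2).toNat, by omega⟩
  have hΔ0 : 0 < Δ := by
    have : (0 : ℤ) < Δ := by rw [hΔ]; linarith
    exact_mod_cast this
  obtain ⟨d, f, hdf, hd⟩ := Nat.sq_mul_squarefree Δ
  have hdf' : (f : ℤ) ^ 2 * d = 4 * p - t ^ 2 := by rw [← hΔ]; exact_mod_cast hdf
  have hf0 : f ≠ 0 := by
    rintro rfl
    rw [zero_pow two_ne_zero, zero_mul] at hdf
    omega
  have hd0 : d ≠ 0 := hd.ne_zero
  have hp0 : (p : ℤ) ≠ 0 := by exact_mod_cast hp.ne_zero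
  refine ⟨((Finset.Icc (-4 : ℤ) 4) ×ˢ (Finset.Icc (-4 : ℤ) 4)).image
    fun NM => (((t : ℤ) * NM.1 + d * f * NM.2) / 4).toNat, ?_, ?_⟩
  · refine Finset.card_image_le.trans ?_
    rw [Finset.card_product]
    decide
  intro t' ht' hsq
  obtain ⟨Δ', hΔ'⟩ : ∃ Δ : ℕ, (Δ : ℤ) = 4 * p - t' ^ 2 :=
    ⟨(4 * (p : ℤ) - t' ^ 2).toNat, by omega⟩
  obtain ⟨f', hf'⟩ : ∃ f' : ℤ, 4 * (p : ℤ) - t' ^ 2 = d * f' ^ 2 := by
    obtain ⟨s, hs⟩ := hsq
    rw [← hdf', ← hΔ'] at hs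
    have h1 : IsSquare ((d : ℤ) * Δ') := by
      refine sq_of_mul (n := f) (k := s) (by exact_mod_cast hf0) ?_
      rw [sq s, ← hs]
      ring
    obtain ⟨k, hk⟩ := h1
    have h2 : (d : ℤ) ∣ k := by
      have h3 : (d : ℤ) ∣ k ^ 2 := by
        rw [sq, ← hk]
        exact dvd_mul_right _ _
      have h4 : d ∣ k.natAbs ^ 2 := by
        rw [← Int.natCast_dvd_natCast]
        push_cast
        rw [sq_abs]
        exact h3
      have h5 : d ∣ k.natAbs := (hd.dvd_pow_iff_dvd two_ne_zero).1 h4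
      exact Int.natCast_dvd.2 h5
    obtain ⟨f', rfl⟩ := h2
    refine ⟨f', ?_⟩
    rw [← hΔ']
    have h6 : (d : ℤ) * Δ' = d * (d * f' ^ 2) := by rw [hk]; ring
    exact mul_left_cancel₀ (by exact_mod_cast hd0) h6
  -- the two cases
  have key : ∀ (g M : ℤ), g ^ 2 = f' ^ 2 → (t : ℤ) * g - t' * f = p * M →
      ∃ N M : ℤ, |N| ≤ 4 ∧ |M| ≤ 4 ∧ 4 * (t' : ℤ) = t * N + d * f * M := by
    intro g M hg hM
    have hg' : 4 * (p : ℤ) - t' ^ 2 = d * g ^ 2 := by rw [hf', hg]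
    have h1 : (t * t' + d * f * g) ^ 2 + d * (t * g - t' * f) ^ 2 = 16 * (p : ℤ) ^ 2 := by
      linear_combination (-(t' : ℤ) ^ 2 - d * g ^ 2) * (-1) * hdf' + (4 * (p : ℤ)) * (-1) * hg'
    have h2 : (p : ℤ) ∣ t * t' + d * f * g := by
      have h3 : (p : ℤ) ^ 2 ∣ (t * t' + d * f * g) ^ 2 := by
        refine ⟨16 - d * M ^ 2, ?_⟩
        rw [hM] at h1
        linear_combination h1
      exact (Int.pow_dvd_pow_iff two_ne_zero).1 h3
    obtain ⟨N, hN⟩ := h2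
    rw [hM, hN] at h1
    have h3 : N ^ 2 + d * M ^ 2 = 16 := by
      have : (p : ℤ) ^ 2 * (N ^ 2 + d * M ^ 2) = p ^ 2 * 16 := by linear_combination h1
      exact mul_left_cancel₀ (pow_ne_zero 2 hp0) this
    have hd1 : (1 : ℤ) ≤ d := by exact_mod_cast Nat.one_le_iff_ne_zero.2 hd0
    refine ⟨N, -M, ?_, ?_, ?_⟩
    · have h4 : 0 ≤ d * M ^ 2 := by positivity
      exact abs_le_of_sq_le_sq (b := 4) (by linarith) (by norm_num)
    · rw [abs_neg]
      have h4 : M ^ 2 ≤ d * M ^ 2 := by nlinarith [sq_nonneg M]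
      exact abs_le_of_sq_le_sq (b := 4) (by nlinarith [sq_nonneg N]) (by norm_num)
    · have : (p : ℤ) * (4 * t') = p * (t * N + d * f * (-M)) := by
        linear_combination t * hN - d * f * hM - t' * hdf'
      exact mul_left_cancel₀ hp0 this
  have hfin : ∃ N M : ℤ, |N| ≤ 4 ∧ |M| ≤ 4 ∧ 4 * (t' : ℤ) = t * N + d * f * M := by
    have h1 : (t * f' - t' * f) * (t * f' + t' * f) = (p : ℤ) * (4 * (f' ^ 2 - f ^ 2)) := by
      linear_combination (f' : ℤ) ^ 2 * hdf' + (f : ℤ) ^ 2 * hf'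
    have h2 : (p : ℤ) ∣ (t * f' - t' * f) * (t * f' + t' * f) := h1 ▸ dvd_mul_right _ _
    rcases (Nat.prime_iff_prime_int.1 hp).dvd_or_dvd h2 with h | h
    · obtain ⟨M, hM⟩ := h
      exact key f' M rfl hM
    · obtain ⟨M, hM⟩ := h
      exact key (-f') (-M) (by ring) (by linear_combination -hM)
  obtain ⟨N, M, hN, hM, he⟩ := hfin
  rw [Finset.mem_image]
  refine ⟨(N, M), ?_, ?_⟩
  · rw [Finset.mem_product, Finset.mem_Icc, Finset.mem_Icc]
    exact ⟨abs_le.1 hN, abs_le.1 hM⟩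
  · dsimp only
    rw [← he, Int.mul_ediv_cancel_left _ (by norm_num), Int.toNat_natCast]

end Pool.Agent.H22.IA
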