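import Pool.Agent.H22.IA.Pri

/-!
Counting.
-/

set_option autoImplicit false

namespace Pool.Agent.H22.IA

open Finset

/-- the number of zeros of a polynomial -/
theorem sz {p : ℕ} [Fact p.Prime] {k₀ : Type} [Field k₀] [CharP k₀ p] {n : ℕ}
    {R : MvPolynomial (Fin n) ℤ} {μ : Fin n →₀ ℕ} (hμ : ¬ (p : ℤ) ∣ R.coeff μ) (κ : Fin n → k₀)
    {u : k₀} (hu : u ≠ 0) [DecidablePred fun e : Fin n → ZMod p =>
      MvPolynomial.aeval (fun i => (κ i + ZMod.castHom (dvd_refl p) k₀ (e i)) / u) R = 0] :
    (univ.filter fun e : Fin n → ZMod p =>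
      MvPolynomial.aeval (fun i => (κ i + ZMod.castHom (dvd_refl p) k₀ (e i)) / u) R = 0).card * p ≤
      (∑ i, R.degreeOf i) * p ^ n := by
  classical
  have hp0 : (0 : ℚ≥0) < p := by
    have := (Fact.out : p.Prime).pos
    exact_mod_cast this
  let φ : ZMod p →+* k₀ := ZMod.castHom (dvd_refl p) k₀
  have hφ : Function.Injective φ := RingHom.injective φ
  let g : Fin n → ZMod p → k₀ := fun i e => (κ i + φ e) / u
  have hg : ∀ i, Function.Injective (g i) := by
    intro i x y h
    have h1 : (κ i + φ x) / u = (κ i + φ y) / u := h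
    rw [div_left_inj' hu, add_right_inj] at h1
    exact hφ h1
  let S : Fin n → Finset k₀ := fun i => univ.image (g i)
  have hS : ∀ i, (S i).card = p := by
    intro i
    show (univ.image (g i)).card = p
    rw [card_image_of_injective _ (hg i), card_univ, ZMod.card]
  set R' : MvPolynomial (Fin n) k₀ := MvPolynomial.map (Int.castRingHom k₀) R with hR'
  have hne : R' ≠ 0 := by
    intro h
    have h1 := congrArg (MvPolynomial.coeff μ) h
    rw [hR', MvPolynomial.coeff_map, MvPolynomial.coeff_zero] at h1
    have h2 : ((R.coeff μ : ℤ) : k₀) = 0 := h1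
    rw [CharP.intCast_eq_zero_iff k₀ p] at h2
    exact hμ h2
  have h1 := MvPolynomial.schwartz_zippel_sum_degreeOf hne S
  have h2 : (univ.filter fun e : Fin n → ZMod p =>
      MvPolynomial.aeval (fun i => (κ i + ZMod.castHom (dvd_refl p) k₀ (e i)) / u) R = 0).card ≤
      ((Fintype.piFinset S).filter fun x => MvPolynomial.eval x R' = 0).card := by
    refine card_le_card_of_injOn (fun e i => g i (e i)) ?_ ?_
    · intro e he
      rw [mem_coe, mem_filter] at he
      rw [mem_coe, mem_filter, Fintype.mem_piFinset]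
      refine ⟨fun i => mem_image_of_mem _ (mem_univ _), ?_⟩
      rw [← he.2, hR', MvPolynomial.eval_map, MvPolynomial.aeval_def]
      rfl
    · intro e _ e' _ h
      funext i
      exact hg i (congrFun h i)
  have h3 : (∏ i, ((S i).card : ℚ≥0)) = (p : ℚ≥0) ^ n := by
    rw [prod_congr rfl fun i _ => by rw [hS i], prod_const, card_univ, Fintype.card_fin]
  rw [h3, div_le_iff₀ (pow_pos hp0 n)] at h1
  have h4 : (∑ i, (R'.degreeOf i / (S i).card : ℚ≥0)) * p ≤ ∑ i, (R.degreeOf i : ℚ≥0) := by
    rw [sum_mul]
    refine sum_le_sum fun i _ => ?_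
    rw [hS i, div_mul_cancel₀ _ hp0.ne']
    have : R'.degreeOf i ≤ R.degreeOf i := by
      rw [MvPolynomial.degreeOf_def, MvPolynomial.degreeOf_def]
      exact Multiset.count_le_of_le i MvPolynomial.degrees_map_le
    exact_mod_cast this
  have h5 : ((((Fintype.piFinset S).filter fun x => MvPolynomial.eval x R' = 0).card * p : ℕ) : ℚ≥0)
      ≤ (((∑ i, R.degreeOf i) * p ^ n : ℕ) : ℚ≥0) := by
    push_cast
    calc _ ≤ ((∑ i, (R'.degreeOf i / (S i).card : ℚ≥0)) * p ^ n) * p := by gcongr
      _ = ((∑ i, (R'.degreeOf i / (S i).card : ℚ≥0)) * p) * p ^ n := by ring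
      _ ≤ _ := by gcongr
  exact (Nat.mul_le_mul_right _ h2).trans (by exact_mod_cast h5)

/-- one coordinate -/
theorem card_fiber {p : ℕ} [NeZero p] {n : ℕ} (j : Fin n) (P : (Fin n → ZMod p) → Prop)
    [DecidablePred P] {K : ℕ} (hK : ∀ β : Fin n → ZMod p,
      (univ.filter fun y : ZMod p => P (Function.update β j y)).card ≤ K) :
    (univ.filter P).card * p ≤ K * p ^ n := by
  classical
  set A := univ.filter P with hA
  set f : (Fin n → ZMod p) → (Fin n → ZMod p) := fun β => Function.update β j 0 with hf
  have h1 : A.card ≤ K * (A.image f).card := by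
    refine card_le_mul_card_image A K fun c hc => ?_
    obtain ⟨β, -, rfl⟩ := mem_image.1 hc
    refine le_trans ?_ (hK β)
    refine card_le_card_of_injOn (fun x => x j) ?_ ?_
    · intro x hx
      rw [mem_coe, mem_filter, hA, mem_filter] at hx
      rw [mem_coe, mem_filter]
      refine ⟨mem_univ _, ?_⟩
      have e : Function.update β j (x j) = x := by
        have h2 : Function.update (f x) j (x j) = x := by
          rw [hf]
          dsimp only
          rw [Function.update_idem, Function.update_eq_self]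
        have h3 : Function.update (f β) j (x j) = Function.update β j (x j) := by
          rw [hf]
          dsimp only
          rw [Function.update_idem]
        rw [← h3, ← hx.2, h2]
      rw [e]
      exact hx.1.2
    · intro x hx x' hx' h
      rw [mem_coe, mem_filter] at hx hx'
      have h2 := hx.2.trans hx'.2.symm
      funext i
      by_cases hi : i = j
      · rw [hi]
        exact h
      · have h3 := congrFun h2 i
        rw [hf] at h3
        simpa [Function.update_of_ne hi] using h3
  have h2 : (A.image f).card * p ≤ p ^ n := by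
    have h3 : (A.image f).card ≤ (univ.filter fun β : Fin n → ZMod p => β j = 0).card := by
      refine card_le_card fun β hβ => ?_
      obtain ⟨x, -, rfl⟩ := mem_image.1 hβ
      rw [mem_filter]
      exact ⟨mem_univ _, by simp [hf]⟩
    have h4 : (univ.filter fun β : Fin n → ZMod p => β j = 0).card * p ≤ p ^ n := by
      have h5 : ((univ.filter fun β : Fin n → ZMod p => β j = 0) ×ˢ (univ : Finset (ZMod p))).card ≤
          (univ : Finset (Fin n → ZMod p)).card := by
        refine card_le_card_of_injOn (fun x => Function.update x.1 j x.2) (fun _ _ => mem_univ _) ?_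
        rintro ⟨β, x⟩ h ⟨β', x'⟩ h' he
        rw [mem_coe, mem_product, mem_filter] at h h'
        dsimp only at he h h'
        have h6 := congrFun he j
        rw [Function.update_self, Function.update_self] at h6
        refine Prod.ext (funext fun i => ?_) h6
        by_cases hi : i = j
        · dsimp only
          rw [hi, h.1.2, h'.1.2]
        · have h7 := congrFun he i
          rwa [Function.update_of_ne hi, Function.update_of_ne hi] at h7
      rw [card_product, card_univ, card_univ, ZMod.card, Fintype.card_pi] at h5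
      simpa [ZMod.card] using h5
    exact (Nat.mul_le_mul_right _ h3).trans h4
  calc A.card * p ≤ K * (A.image f).card * p := Nat.mul_le_mul_right _ h1
    _ = K * ((A.image f).card * p) := by ring
    _ ≤ _ := Nat.mul_le_mul_left _ h2

/-- integers in a box with residues in a given set -/
theorem card_box {p : ℕ} [NeZero p] {n : ℕ} (B : Finset ((Fin n → ZMod p) × (Fin n → ZMod p)))
    (N : ℕ) (A : Set (Fin n → ℤ)) (hA : ∀ b ∈ A, (∀ i, |b i| ≤ N) ∧
      ((fun i => ((b i : ℤ) : ZMod p), fun i => ((b i / p : ℤ) : ZMod p)) :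
        (Fin n → ZMod p) × (Fin n → ZMod p)) ∈ B) :
    A.Finite ∧ A.ncard * p ^ (2 * n) ≤ B.card * (2 * (N + p ^ 2)) ^ n := by
  classical
  have hp : 0 < p := Nat.pos_of_ne_zero (NeZero.ne p)
  have hpZ : (0 : ℤ) < p := by exact_mod_cast hp
  let I : Finset ℤ := Icc (-((N / p ^ 2 : ℕ) : ℤ) - 1) ((N / p ^ 2 : ℕ) : ℤ)
  let T : Finset (((Fin n → ZMod p) × (Fin n → ZMod p)) × (Fin n → ℤ)) :=
    B ×ˢ Fintype.piFinset fun _ => I
  let g : (Fin n → ℤ) → ((Fin n → ZMod p) × (Fin n → ZMod p)) × (Fin n → ℤ) := fun b =>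
    ((fun i => ((b i : ℤ) : ZMod p), fun i => ((b i / p : ℤ) : ZMod p)), fun i => b i / p / p)
  have hg : Function.Injective g := by
    intro b b' h
    funext i
    have h1 : ((b i : ℤ) : ZMod p) = ((b' i : ℤ) : ZMod p) :=
      congrFun (congrArg (fun x => x.1.1) h) i
    have h2 : ((b i / p : ℤ) : ZMod p) = ((b' i / p : ℤ) : ZMod p) :=
      congrFun (congrArg (fun x => x.1.2) h) i
    have h3 : b i / p / p = b' i / p / p := congrFun (congrArg (fun x => x.2) h) i
    rw [ZMod.intCast_eq_intCast_iff'] at h1 h2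
    have h4 : b i / p = b' i / p := by
      rw [← Int.emod_add_mul_ediv (b i / p) p, ← Int.emod_add_mul_ediv (b' i / p) p, h2, h3]
    rw [← Int.emod_add_mul_ediv (b i) p, ← Int.emod_add_mul_ediv (b' i) p, h1, h4]
  have hmaps : ∀ b ∈ A, g b ∈ T := by
    intro b hb
    obtain ⟨h1, h2⟩ := hA b hb
    rw [mem_product]
    refine ⟨h2, ?_⟩
    rw [Fintype.mem_piFinset]
    intro i
    show b i / p / p ∈ I
    have h3 := abs_le.1 (h1 i)
    have h4 : b i / p / p = b i / (p ^ 2 : ℕ) := by
      rw [Int.ediv_ediv_of_nonneg hpZ.le]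
      push_cast
      rw [sq]
    have h5 : 0 < p ^ 2 := by positivity
    have h6 : N < p ^ 2 * (N / p ^ 2 + 1) := Nat.lt_mul_div_succ N h5
    rw [h4, mem_Icc]
    generalize p ^ 2 = P at h5 h6
    generalize N / P = M at h6
    have h5' : (0 : ℤ) < P := by exact_mod_cast h5
    have h6' : (N : ℤ) < P * (M + 1) := by exact_mod_cast h6
    constructor
    · rw [Int.le_ediv_iff_mul_le h5']
      nlinarith
    · have : b i / (P : ℤ) < M + 1 := by
        rw [Int.ediv_lt_iff_lt_mul h5']
        nlinarith
      omega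
  have hfin : A.Finite :=
    Set.Finite.of_finite_image (T.finite_toSet.subset (Set.image_subset_iff.2 hmaps))
      (Set.injOn_of_injective hg)
  refine ⟨hfin, ?_⟩
  have h1 : A.ncard ≤ T.card := by
    rw [← Set.ncard_coe_finset]
    exact Set.ncard_le_ncard_of_injOn g hmaps (Set.injOn_of_injective hg) (T.finite_toSet)
  have hI : I.card = 2 * (N / p ^ 2 + 1) := by
    show (Icc _ _).card = _
    rw [Int.card_Icc]
    omega
  have h2 : T.card = B.card * (2 * (N / p ^ 2 + 1)) ^ n := by
    show (B ×ˢ Fintype.piFinset fun _ => I).card = _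
    rw [card_product, Fintype.card_piFinset, prod_const, card_univ, Fintype.card_fin, hI]
  calc A.ncard * p ^ (2 * n) ≤ B.card * (2 * (N / p ^ 2 + 1)) ^ n * p ^ (2 * n) := by
        rw [← h2]
        exact Nat.mul_le_mul_right _ h1
    _ = B.card * (2 * (p ^ 2 * (N / p ^ 2 + 1))) ^ n := by
        rw [pow_mul]
        rw [mul_assoc, ← mul_pow]
        congr 2
        ring
    _ ≤ _ := by
        refine Nat.mul_le_mul_left _ (Nat.pow_le_pow_left ?_ n)
        refine Nat.mul_le_mul_left _ ?_
        rw [mul_add, mul_one]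
        exact Nat.add_le_add_right (Nat.mul_div_le N _) _

end Pool.Agent.H22.IA
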