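import Pool.Graph.R_pool_sql_team_seeded_63374d34.N135.ZO.Glob

/-!
General position at infinity in characteristic zero gives general position with respect to generic
points for almost all residue characteristics.
-/

set_option autoImplicit false

namespace Pool.Agent.H22.IA

open MvPolynomial Pool.Agent.N135.ZO

/-- general position at infinity -/
def GenInf {n : ℕ} {T : Type} (F : T → MForm ℤ n) (m : ℕ) : Prop :=
  ∀ ξ ζ : Fin n → ℂ, (∀ i, ξ i ≠ 0 ∨ ζ i ≠ 0) →
    (∀ t, (F t).eval (Int.castRingHom ℂ) ξ ζ = 0) →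
    ∀ W : Finset (Fin n), AlgebraicIndependent ℚ (fun i : W => ξ i / ζ i) →
      {i | ζ i = 0}.ncard + W.card ≤ m

theorem eval_smul {R : Type} [CommRing R] {n : ℕ} (F : MForm R n) {k : Type} [CommRing k]
    (π : R →+* k) (u ξ ζ : Fin n → k) : F.eval π (fun i => u i * ξ i) (fun i => u i * ζ i) =
      (∏ i, u i ^ F.deg i) * F.eval π ξ ζ := by
  unfold MForm.eval
  rw [Finset.mul_sum]
  refine Finset.sum_congr rfl fun e _ => ?_
  rw [mul_left_comm, ← Finset.prod_mul_distrib]
  congr 1
  refine Finset.prod_congr rfl fun i _ => ?_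
  rw [mul_pow, mul_pow]
  have h : u i ^ F.deg i = u i ^ (e i : ℕ) * u i ^ (F.deg i - e i) := by
    rw [← pow_add]
    congr 1
    have := (e i).2
    omega
  rw [h]
  ring

theorem exists_lift (K L : Type) [Field K] [Field L] [Algebra K L] [Algebra.FiniteType K L]
    [Algebra K ℂ] : ∃ e : L →+* ℂ, ∀ a : K, e (algebraMap K L a) = algebraMap K ℂ a := by
  have _ : Module.Finite K L := finite_of_finite_type_of_isJacobsonRing K L
  let e : L →ₐ[K] ℂ := IsAlgClosed.lift
  exact ⟨e, fun a => e.commutes a⟩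

section gen

variable {n : ℕ} (I J W : Finset (Fin n))

/-- the ring of the generic point -/
abbrev AA := MvPolynomial W (MvPolynomial (Fin n) ℤ)

open Classical in
/-- the first coordinates of the generic point -/
noncomputable def gξ (i : Fin n) : MvPolynomial (Fin n) (AA W) :=
  if i ∈ I then 1 else if i ∈ J then C (C (-X i)) else if h : i ∈ W then C (X ⟨i, h⟩) else X i

open Classical in
/-- the second coordinates of the generic point -/
noncomputable def gζ (i : Fin n) : MvPolynomial (Fin n) (AA W) :=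
  if i ∈ I then 0 else 1

theorem exists_embedding : ∃ g : AA W →+* ℂ, Function.Injective g := by
  obtain ⟨s, hs⟩ := exists_isTranscendenceBasis ℤ ℂ
  have h1 := IsAlgClosed.cardinal_eq_cardinal_transcendence_basis_of_aleph0_lt _ hs
    (Cardinal.mk_le_aleph0) (by rw [Cardinal.mk_complex]; exact Cardinal.aleph0_lt_continuum)
  rw [Cardinal.mk_complex, Cardinal.lift_uzero, Cardinal.lift_uzero] at h1
  have h2 : Infinite s := by
    rw [Cardinal.infinite_iff, ← h1]
    exact Cardinal.aleph0_le_continuum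
  obtain ⟨f, hf⟩ : ∃ f : W ⊕ Fin n → s, Function.Injective f := by
    exact ⟨fun w => Infinite.natEmbedding s (Fintype.equivFin (W ⊕ Fin n) w),
      (Infinite.natEmbedding s).injective.comp
        (Fin.val_injective.comp (Fintype.equivFin (W ⊕ Fin n)).injective)⟩
  have h3 := hs.1.comp f hf
  refine ⟨(aeval ((Subtype.val : s → ℂ) ∘ f) : MvPolynomial (W ⊕ Fin n) ℤ →ₐ[ℤ] ℂ).toRingHom.comp
    ((MvPolynomial.sumRingEquiv ℤ W (Fin n)).symm : AA W →+* MvPolynomial (W ⊕ Fin n) ℤ), ?_⟩
  exact Function.Injective.comp (g := (aeval ((Subtype.val : s → ℂ) ∘ f) :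
    MvPolynomial (W ⊕ Fin n) ℤ →ₐ[ℤ] ℂ)) h3 (MvPolynomial.sumRingEquiv ℤ W (Fin n)).symm.injective

open Classical in
theorem gen_indep {L : Type} [Field L] [Algebra ℚ L] (g : AA W →+* L)
    (hg : Function.Injective g) :
    AlgebraicIndependent ℚ (fun i : ((J ∪ W : Finset (Fin n)) : Finset (Fin n)) =>
      g (if h : (i : Fin n) ∈ W then X ⟨i, h⟩ else C (-X (i : Fin n)))) := by
  have hZ : AlgebraicIndependent ℤ (fun i : ((J ∪ W : Finset (Fin n)) : Finset (Fin n)) =>
      (if h : (i : Fin n) ∈ W then X ⟨i, h⟩ else C (-X (i : Fin n)) : AA W)) := by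
    let ψ : AA W →+* MvPolynomial ((J ∪ W : Finset (Fin n)) : Finset (Fin n)) ℤ :=
      eval₂Hom (eval₂Hom (Int.castRingHom _) (fun j : Fin n =>
        if h : j ∈ J ∪ W then -X ⟨j, h⟩ else 0))
        (fun w : W => X ⟨w, Finset.mem_union_right _ w.2⟩)
    have hψ : ψ.comp (aeval (fun i : ((J ∪ W : Finset (Fin n)) : Finset (Fin n)) =>
      (if h : (i : Fin n) ∈ W then X ⟨i, h⟩ else C (-X (i : Fin n)) : AA W))).toRingHom =
        RingHom.id _ := by
      refine MvPolynomial.ringHom_ext (fun a => ?_) (fun i => ?_)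
      · simp
      · show ψ (aeval _ (X i)) = X i
        rw [aeval_X]
        split_ifs with h
        · simp [ψ]
        · have h3 : (i : Fin n) ∈ J ∪ W := i.2
          simp only [ψ, map_neg, coe_eval₂Hom, eval₂_C, eval₂_X]
          rw [dif_pos h3, neg_neg]
    have hinj : Function.Injective (aeval (R := ℤ)
        (fun i : ((J ∪ W : Finset (Fin n)) : Finset (Fin n)) =>
        (if h : (i : Fin n) ∈ W then X ⟨i, h⟩ else C (-X (i : Fin n)) : AA W))) := by
      intro a b hab
      have h1 := congrArg ψ hab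
      have h2 : ∀ c, ψ (aeval _ c) = c := fun c => DFunLike.congr_fun hψ c
      rwa [h2, h2] at h1
    exact hinj
  have hZL : AlgebraicIndependent ℤ (fun i : ((J ∪ W : Finset (Fin n)) : Finset (Fin n)) =>
      g (if h : (i : Fin n) ∈ W then X ⟨i, h⟩ else C (-X (i : Fin n)))) :=
    hZ.map' (f := g.toIntAlgHom) hg
  have _ : Algebra.IsAlgebraic ℤ ℚ := IsLocalization.isAlgebraic ℚ (nonZeroDivisors ℤ)
  exact hZL.extendScalars ℚ

variable {I J W}

theorem gen_top {T : Type} {F : T → MForm ℤ n} {m : ℕ} (hF : GenInf F m)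
    (hIJ : Disjoint I J) (hIW : Disjoint I W) (hJW : Disjoint J W)
    (hm : m < I.card + J.card + W.card) :
    (Ideal.span (Set.range fun t => (F t).eval
      (Int.castRingHom (MvPolynomial (Fin n) (AA W))) (gξ I J W) (gζ I W))).map
      (MvPolynomial.map (algebraMap (AA W) (FractionRing (AA W)))) = ⊤ := by
  classical
  by_contra hne
  obtain ⟨M, hM, hle⟩ := Ideal.exists_le_maximal _ hne
  let K := FractionRing (AA W)
  obtain ⟨g, hg⟩ := exists_embedding W
  let _ : Algebra K ℂ := (IsFractionRing.lift (K := K) hg).toAlgebra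
  have hKL : Function.Injective (algebraMap K ℂ) := (algebraMap K ℂ).injective
  obtain ⟨q₀, hq₀, hq₀C⟩ : ∃ q₀ : MvPolynomial (Fin n) K →+* ℂ, (∀ z ∈ M, q₀ z = 0) ∧
      ∀ a : K, q₀ (C a) = algebraMap K ℂ a := by
    let _ : Field (MvPolynomial (Fin n) K ⧸ M) := Ideal.Quotient.field M
    obtain ⟨e, he⟩ := exists_lift K (MvPolynomial (Fin n) K ⧸ M)
    refine ⟨e.comp (Ideal.Quotient.mk M), fun z hz => ?_, fun a => ?_⟩
    · show e (Ideal.Quotient.mk M z) = 0
      rw [Ideal.Quotient.eq_zero_iff_mem.2 hz, map_zero]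
    · exact he a
  let q : MvPolynomial (Fin n) (AA W) →+* ℂ := q₀.comp (MvPolynomial.map (algebraMap (AA W) K))
  have hq : ∀ t, q ((F t).eval (Int.castRingHom (MvPolynomial (Fin n) (AA W)))
      (gξ I J W) (gζ I W)) = 0 := by
    intro t
    exact hq₀ _ (hle (Ideal.mem_map_of_mem _ (Ideal.subset_span ⟨t, rfl⟩)))
  have hq' : ∀ t, (F t).eval (Int.castRingHom ℂ) (fun i => q (gξ I J W i))
      (fun i => q (gζ I W i)) = 0 := by
    intro t
    have h1 := hq t
    have h0 := MForm.map_eval (F t) (Int.castRingHom (MvPolynomial (Fin n) (AA W))) q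
      (gξ I J W) (gζ I W)
    rw [h1] at h0
    have h2 : q.comp (Int.castRingHom (MvPolynomial (Fin n) (AA W))) = Int.castRingHom ℂ :=
      RingHom.ext_int _ _
    rw [h2] at h0
    exact h0.symm
  have hζ : ∀ i, q (gζ I W i) = if i ∈ I then 0 else 1 := by
    intro i
    unfold gζ
    split_ifs
    · exact map_zero q
    · exact map_one q
  have h1 := hF (fun i => q (gξ I J W i)) (fun i => q (gζ I W i)) (by
    intro i
    by_cases hi : i ∈ I
    · left
      unfold gξ
      rw [if_pos hi, map_one]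
      exact one_ne_zero
    · right
      rw [hζ, if_neg hi]
      exact one_ne_zero) hq' (J ∪ W) ?_
  · have h2 : {i | q (gζ I W i) = 0} = (I : Set (Fin n)) := by
      ext i
      simp only [Set.mem_ofPred_eq, hζ, Finset.mem_coe]
      split_ifs with h
      · simp [h]
      · simp [h]
    rw [h2, Set.ncard_coe_finset, Finset.card_union_of_disjoint hJW] at h1
    omega
  · -- independence
    have e : (fun i : ((J ∪ W : Finset (Fin n)) : Finset (Fin n)) =>
        q (gξ I J W i) / q (gζ I W i)) = fun i : ((J ∪ W : Finset (Fin n)) : Finset (Fin n)) =>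
          algebraMap K ℂ (algebraMap (AA W) K
          (if h : (i : Fin n) ∈ W then X ⟨i, h⟩ else C (-X (i : Fin n)))) := by
      funext i
      have hi : (i : Fin n) ∉ I := by
        have h3 := i.2
        rw [Finset.mem_union] at h3
        rcases h3 with h3 | h3
        · exact fun h4 => (Finset.disjoint_left.1 hIJ) h4 h3
        · exact fun h4 => (Finset.disjoint_left.1 hIW) h4 h3
      rw [hζ, if_neg hi, div_one]
      have h5 : ∀ a : AA W, q (C a) = algebraMap K ℂ (algebraMap (AA W) K a) := by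
        intro a
        show q₀ (MvPolynomial.map (algebraMap (AA W) K) (C a)) = _
        rw [map_C, hq₀C]
      unfold gξ
      rw [if_neg hi]
      by_cases hW : (i : Fin n) ∈ W
      · have hJ : (i : Fin n) ∉ J := fun h4 => (Finset.disjoint_left.1 hJW) h4 hW
        rw [if_neg hJ, dif_pos hW, dif_pos hW, h5]
      · have hJ : (i : Fin n) ∈ J := by
          have h3 := i.2
          rw [Finset.mem_union] at h3
          exact h3.resolve_right hW
        rw [if_pos hJ, dif_neg hW, h5]
    rw [e]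
    exact gen_indep J W ((algebraMap K ℂ).comp (algebraMap (AA W) K))
      (hKL.comp (IsFractionRing.injective (AA W) K))

attribute [local instance] MvPolynomial.algebraMvPolynomial in
theorem gen_mem {T : Type} {F : T → MForm ℤ n} {m : ℕ} (hF : GenInf F m)
    (hIJ : Disjoint I J) (hIW : Disjoint I W) (hJW : Disjoint J W)
    (hm : m < I.card + J.card + W.card) : ∃ a : AA W, a ≠ 0 ∧
    C a ∈ Ideal.span (Set.range fun t => (F t).eval
      (Int.castRingHom (MvPolynomial (Fin n) (AA W))) (gξ I J W) (gζ I W)) := by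
  have h1 := gen_top hF hIJ hIW hJW hm
  have hmap : (MvPolynomial.map (algebraMap (AA W) (FractionRing (AA W))) :
      MvPolynomial (Fin n) (AA W) →+* _) =
      algebraMap (MvPolynomial (Fin n) (AA W)) (MvPolynomial (Fin n) (FractionRing (AA W))) := rfl
  have h2 : (1 : MvPolynomial (Fin n) (FractionRing (AA W))) ∈ Ideal.map
      (algebraMap (MvPolynomial (Fin n) (AA W)) (MvPolynomial (Fin n) (FractionRing (AA W))))
      (Ideal.span (Set.range fun t => (F t).eval
      (Int.castRingHom (MvPolynomial (Fin n) (AA W))) (gξ I J W) (gζ I W))) := by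
    rw [← hmap, h1]
    exact Submodule.mem_top
  rw [IsLocalization.mem_map_algebraMap_iff (Submonoid.map MvPolynomial.C (nonZeroDivisors (AA W)))] at h2
  obtain ⟨⟨⟨x, hx⟩, ⟨s, hs⟩⟩, hxs⟩ := h2
  obtain ⟨a, ha, rfl⟩ := hs
  refine ⟨a, nonZeroDivisors.ne_zero ha, ?_⟩
  rw [one_mul] at hxs
  have hinj : Function.Injective (algebraMap (MvPolynomial (Fin n) (AA W))
      (MvPolynomial (Fin n) (FractionRing (AA W)))) :=
    MvPolynomial.map_injective _ (IsFractionRing.injective _ _)
  have := hinj hxs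
  dsimp only at this
  rw [this]
  exact hx

open Classical in
theorem exists_r {T : Type} {F : T → MForm ℤ n} {m : ℕ} (hF : GenInf F m)
    (I J W : Finset (Fin n)) :
    ∃ r : MvPolynomial (Fin n) ℤ, r ≠ 0 ∧ (Disjoint I J → Disjoint I W → Disjoint J W →
      m < I.card + J.card + W.card →
      ∀ (k₀ k : Type) [Field k₀] [Field k] [Algebra k₀ k] (γ : Fin n → k₀), aeval γ r ≠ 0 →
      ∀ ξ : Fin n → k, (∀ t, (F t).eval (Int.castRingHom k) (fun i => if i ∈ I then 1 else ξ i)
        (fun i => if i ∈ I then 0 else 1) = 0) →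
      (∀ i ∈ J, ξ i = -algebraMap k₀ k (γ i)) → ¬ AlgebraicIndependent k₀ (fun i : W => ξ i)) := by
  by_cases hP : Disjoint I J ∧ Disjoint I W ∧ Disjoint J W ∧ m < I.card + J.card + W.card
  swap
  · exact ⟨1, one_ne_zero, fun h1 h2 h3 h4 => absurd ⟨h1, h2, h3, h4⟩ hP⟩
  obtain ⟨hIJ, hIW, hJW, hm⟩ := hP
  obtain ⟨a, ha0, ha⟩ := gen_mem hF hIJ hIW hJW hm
  obtain ⟨μ, hμ⟩ := MvPolynomial.ne_zero_iff.1 ha0
  refine ⟨a.coeff μ, hμ, fun _ _ _ _ k₀ k _ _ _ γ hγ ξ hξ hJ hW => hγ ?_⟩
  -- evaluation at the point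
  let φ₀ : MvPolynomial (Fin n) ℤ →+* k₀ := (aeval γ : MvPolynomial (Fin n) ℤ →ₐ[ℤ] k₀).toRingHom
  let φ : AA W →+* k := eval₂Hom ((algebraMap k₀ k).comp φ₀) (fun i : W => ξ i)
  let q : MvPolynomial (Fin n) (AA W) →+* k := eval₂Hom φ ξ
  have hqξ : ∀ i, q (gξ I J W i) = if i ∈ I then 1 else ξ i := by
    intro i
    unfold gξ
    split_ifs with h1 h2 h3
    · exact map_one q
    · simp only [q, φ, φ₀, coe_eval₂Hom, eval₂_C, RingHom.comp_apply, AlgHom.toRingHom_eq_coe,
        RingHom.coe_coe, map_neg, aeval_X]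
      exact (hJ i h2).symm
    · simp only [q, φ, coe_eval₂Hom, eval₂_C, eval₂_X]
    · simp only [q, coe_eval₂Hom, eval₂_X]
  have hqζ : ∀ i, q (gζ I W i) = if i ∈ I then 0 else 1 := by
    intro i
    unfold gζ
    split_ifs
    · exact map_zero q
    · exact map_one q
  have hq : q (C a) = 0 := by
    rw [← RingHom.mem_ker]
    refine (Ideal.span_le.2 ?_) ha
    rintro _ ⟨t, rfl⟩
    show q _ = 0
    have h0 := MForm.map_eval (F t) (Int.castRingHom (MvPolynomial (Fin n) (AA W))) q
      (gξ I J W) (gζ I W)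
    have h2 : q.comp (Int.castRingHom (MvPolynomial (Fin n) (AA W))) = Int.castRingHom k :=
      RingHom.ext_int _ _
    rw [h2] at h0
    rw [h0, funext hqξ, funext hqζ]
    exact hξ t
  have hq' : aeval (fun i : W => ξ i) (MvPolynomial.map φ₀ a) = 0 := by
    rw [aeval_def, eval₂_map]
    have h1 : q (C a) = φ a := by simp only [q, coe_eval₂Hom, eval₂_C]
    rw [← hq, h1]
    rfl
  have h3 := (algebraicIndependent_iff.1 hW) _ hq'
  have h4 := congrArg (MvPolynomial.coeff μ) h3
  rw [coeff_map, coeff_zero] at h4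
  exact h4

end gen

/-- General position with respect to a generic point, in all characteristics. -/
theorem exists_R {n : ℕ} {T : Type} {F : T → MForm ℤ n} {m : ℕ} (hF : GenInf F m) :
    ∃ R : MvPolynomial (Fin n) ℤ, R ≠ 0 ∧
      ∀ (k₀ k : Type) [Field k₀] [Field k] [Algebra k₀ k] (γ : Fin n → k₀), aeval γ R ≠ 0 →
      ∀ ξ ζ : Fin n → k, (∀ i, ξ i ≠ 0 ∨ ζ i ≠ 0) →
        (∀ t, (F t).eval (Int.castRingHom k) ξ ζ = 0) →
        ∀ W : Finset (Fin n), AlgebraicIndependent k₀ (fun i : W => ξ i / ζ i) →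
          {i | ζ i = 0 ∨ ξ i = -algebraMap k₀ k (γ i) * ζ i}.ncard + W.card ≤ m := by
  classical
  choose r hr0 hr using fun IJW : Finset (Fin n) × Finset (Fin n) × Finset (Fin n) =>
    exists_r hF IJW.1 IJW.2.1 IJW.2.2
  refine ⟨∏ IJW, r IJW, Finset.prod_ne_zero_iff.2 fun i _ => hr0 i, ?_⟩
  intro k₀ k _ _ _ γ hγ ξ ζ hne hV W hW
  rw [map_prod, Finset.prod_ne_zero_iff] at hγ
  set I : Finset (Fin n) := Finset.univ.filter fun i => ζ i = 0 with hI
  set J : Finset (Fin n) := Finset.univ.filter fun i => ζ i ≠ 0 ∧ ξ i = -algebraMap k₀ k (γ i) * ζ i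
    with hJ
  have hset : {i | ζ i = 0 ∨ ξ i = -algebraMap k₀ k (γ i) * ζ i}.ncard = I.card + J.card := by
    have hIJ : Disjoint I J := by
      rw [Finset.disjoint_left]
      intro i hi hj
      rw [hI, Finset.mem_filter] at hi
      rw [hJ, Finset.mem_filter] at hj
      exact hj.2.1 hi.2
    rw [← Finset.card_union_of_disjoint hIJ, ← Set.ncard_coe_finset]
    congr 1
    ext i
    simp only [Set.mem_ofPred_eq, Finset.coe_union, Set.mem_union, Finset.mem_coe, hI, hJ,
      Finset.mem_filter, Finset.mem_univ, true_and]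
    tauto
  rw [hset]
  by_contra hcon
  have htr : ∀ i ∈ W, Transcendental k₀ (ξ i / ζ i) := fun i hi => hW.transcendental ⟨i, hi⟩
  have hIJ : Disjoint I J := by
    rw [Finset.disjoint_left]
    intro i hi hj
    rw [hI, Finset.mem_filter] at hi
    rw [hJ, Finset.mem_filter] at hj
    exact hj.2.1 hi.2
  have hIW : Disjoint I W := by
    rw [Finset.disjoint_left]
    intro i hi hj
    rw [hI, Finset.mem_filter] at hi
    apply htr i hj
    rw [hi.2, div_zero]
    exact isAlgebraic_zero
  have hJW : Disjoint J W := by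
    rw [Finset.disjoint_left]
    intro i hi hj
    rw [hJ, Finset.mem_filter] at hi
    apply htr i hj
    rw [hi.2.2, mul_div_assoc, div_self hi.2.1, mul_one]
    exact (isAlgebraic_algebraMap (γ i)).neg
  refine hr (I, J, W) hIJ hIW hJW (not_le.1 hcon) k₀ k γ (hγ _ (Finset.mem_univ _))
    (fun i => ξ i / ζ i) ?_ ?_ hW
  · intro t
    set u : Fin n → k := fun i => if i ∈ I then ξ i else ζ i with hu
    have hu0 : ∀ i, u i ≠ 0 := by
      intro i
      rw [hu]
      dsimp only
      split_ifs with h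
      · rw [hI, Finset.mem_filter] at h
        exact (hne i).resolve_right (not_not.2 h.2)
      · intro h0
        apply h
        rw [hI, Finset.mem_filter]
        exact ⟨Finset.mem_univ _, h0⟩
    have h1 := eval_smul (F t) (Int.castRingHom k) u (fun i => if i ∈ I then 1 else ξ i / ζ i)
      (fun i => if i ∈ I then 0 else 1)
    have e1 : (fun i => u i * (if i ∈ I then 1 else ξ i / ζ i)) = ξ := by
      funext i
      rw [hu]
      dsimp only
      split_ifs with h
      · rw [mul_one]
      · have h0 : ζ i ≠ 0 := by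
          intro h0
          apply h
          rw [hI, Finset.mem_filter]
          exact ⟨Finset.mem_univ _, h0⟩
        field_simp
    have e2 : (fun i => u i * (if i ∈ I then 0 else 1)) = ζ := by
      funext i
      rw [hu]
      dsimp only
      split_ifs with h
      · rw [hI, Finset.mem_filter] at h
        rw [mul_zero, h.2]
      · rw [mul_one]
    rw [e1, e2, hV t] at h1
    have h2 : ∏ i, u i ^ (F t).deg i ≠ 0 := Finset.prod_ne_zero_iff.2 fun i _ => pow_ne_zero _ (hu0 i)
    exact (mul_eq_zero.1 h1.symm).resolve_left h2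
  · intro i hi
    rw [hJ, Finset.mem_filter] at hi
    rw [hi.2.2, mul_div_assoc, div_self hi.2.1, mul_one]

end Pool.Agent.H22.IA
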