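import Pool.Agent.H22.IA.GenPos
import Pool.Agent.H22.IA.Cls

/-!
From a number field to valuations: the images `b + a V`.
-/

set_option autoImplicit false

namespace Pool.Agent.H22.IA

open UpperHalfPlane H294ZP Function NumberField IsDedekindDomain Pool.Agent.N135.ZO

/-- the property of the polynomial of `exists_R` -/
def GP {n : ℕ} {T : Type} (F : T → MForm ℤ n) (m : ℕ) (R : MvPolynomial (Fin n) ℤ) : Prop :=
  ∀ (k₀ k : Type) [Field k₀] [Field k] [Algebra k₀ k] (γ : Fin n → k₀),
      MvPolynomial.aeval γ R ≠ 0 →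
      ∀ ξ ζ : Fin n → k, (∀ i, ξ i ≠ 0 ∨ ζ i ≠ 0) →
        (∀ t, (F t).eval (Int.castRingHom k) ξ ζ = 0) →
        ∀ W : Finset (Fin n), AlgebraicIndependent k₀ (fun i : W => ξ i / ζ i) →
          {i | ζ i = 0 ∨ ξ i = -algebraMap k₀ k (γ i) * ζ i}.ncard + W.card ≤ m

theorem isCM_fix {p : ℕ} (hp : p.Prime) {τ : ℍ} {M : M2} (hdet : M.det = p)
    (h : N135.ZO.Rel M τ τ) : IsCM τ :=
  ⟨_, _, _, fix_ne hp hdet h, fix_quad h⟩

theorem glob_affine {K : Type} [Field K] [NumberField K] (σ : K →+* ℂ)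
    (v : HeightOneSpectrum (𝓞 K)) {p : ℕ} (hl : p.Prime) (hl2 : p ≠ 2)
    (hpv : (p : 𝓞 K) ∈ v.asIdeal) {n : ℕ}
    (c : Fin n → K) (τ : Fin n → ℍ) (hτ : ∀ i, jj (τ i) = σ (c i))
    (M : Fin n → M2) (hdet : ∀ i, (M i).det = p) (htr : ∀ i, ¬ (p : ℤ) ∣ (M i).trace)
    (hfix : ∀ i, N135.ZO.Rel (M i) (τ i) (τ i))
    (h0 : ∀ i, v.valuation K (c i) = 1) (h1 : ∀ i, v.valuation K (c i - 1728) = 1)
    (hiso : ∀ i j, i ≠ j → ¬ Isog (jj (τ i)) (jj (τ j)))
    (b : Fin n → ℤ) (hb : ∀ i, v.valuation K ((b i : K) - c i) < 1)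
    {a : ℤ} (ha : a ≠ 0) (hpa : (p : ℤ) ∣ a)
    {k₀ : Type} [Field k₀] (mk : 𝓞 K →+* k₀) (hmk : Function.Surjective mk)
    (hker : ∀ z, mk z = 0 ↔ z ∈ v.asIdeal)
    (γ : Fin n → k₀) (hγ : ∀ i, ∀ α δ : 𝓞 K, δ ∉ v.asIdeal →
      (δ : K) * ((b i : K) - c i) = α * a → mk δ * γ i = mk α)
    {T : Type} (F : T → MForm ℤ n) {m : ℕ} {R : MvPolynomial (Fin n) ℤ} (hR : GP F m R)
    (hγR : MvPolynomial.aeval γ R ≠ 0)
    {r : ℕ} (Z : SpecialDatum n r) {x : Fin n → ℂ} (hxZ : x ∈ Z.locus) (y : Fin n → ℂ)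
    (hy : ∀ t, (F t).eval (Int.castRingHom ℂ) y (fun _ => 1) = 0)
    (hxy : ∀ i, x i = b i + a * y i)
    (W : Finset (Fin n)) (hW : AlgebraicIndependent ℚ (fun i : W => x i)) :
    n + W.card ≤ m + r := by
  classical
  let _ : Algebra K ℂ := σ.toAlgebra
  let _ : Algebra (𝓞 K) ℂ := (σ.comp (algebraMap (𝓞 K) K)).toAlgebra
  have _ : IsScalarTower (𝓞 K) K ℂ := IsScalarTower.of_algebraMap_eq (fun _ => rfl)
  have hmap : ∀ a : 𝓞 K, algebraMap (𝓞 K) ℂ a = σ a := fun _ => rfl
  have haK : (a : K) ≠ 0 := by exact_mod_cast ha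
  have haC : (a : ℂ) ≠ 0 := by exact_mod_cast ha
  have hKx : AlgebraicIndependent K (fun i : W => x i) := hW.extendScalars K
  have hKy : AlgebraicIndependent K (fun i : W => y i) :=
    indep_affine (fun i : W => (b i : K)) (fun _ : W => (a : K)) (fun _ => haK)
      (fun i => by rw [hxy i, map_intCast, map_intCast]) hKx
  have hOy : AlgebraicIndependent (𝓞 K) (fun i : W => y i) :=
    hKy.restrictScalars (RingOfIntegers.coe_injective)
  have hprime : v.asIdeal.IsPrime := v.isPrime
  obtain ⟨V, hV1, hV2⟩ := exists_place_gauss v.asIdeal (fun i : W => y i) hOy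
  have hA1 : ∀ a : 𝓞 K, V.valuation (σ a) ≤ 1 := by
    intro a
    have := hV1 (MvPolynomial.C a)
    rwa [MvPolynomial.aeval_C] at this
  have hA2 : ∀ a : 𝓞 K, V.valuation (σ a) < 1 ↔ a ∈ v.asIdeal := by
    intro a
    have := hV2 (MvPolynomial.C a)
    rw [MvPolynomial.aeval_C, hmap, MvPolynomial.map_C, MvPolynomial.C_eq_zero,
      Ideal.Quotient.eq_zero_iff_mem] at this
    exact this
  have hpV : V.valuation (p : ℂ) < 1 := by
    have := (hA2 (p : 𝓞 K)).2 hpv
    simpa using this
  have hpC : (p : ℂ) ≠ 0 := by exact_mod_cast hl.ne_zero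
  have hp0 : V.valuation (p : ℂ) ≠ 0 := by
    rw [Valuation.ne_zero_iff]
    exact hpC
  have hloc := local_main hl hl2 hpV τ (fun i => isCM_fix hl (hdet i) (hfix i))
    (fun i => ⟨1, M i, one_pos, by rw [hdet i, pow_one], htr i, hfix i⟩)
    (fun i => by rw [hτ i]; exact val_one_of hA1 hA2 (h0 i))
    (fun i => by
      have := val_one_of hA1 hA2 (h1 i)
      have e : σ (c i - 1728) = σ (c i) - 1728 := by
        rw [map_sub]
        congr 1
        exact map_ofNat σ 1728
      rw [hτ i, ← e]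
      exact this) hiso Z hxZ
  have hyW : ∀ i ∈ W, y i ∈ V := by
    intro i hi
    have := hV1 (MvPolynomial.X ⟨i, hi⟩)
    rw [MvPolynomial.aeval_X] at this
    exact (V.valuation_le_one_iff _).1 this
  obtain ⟨P⟩ := exists_pkg hl hl2
  have hbc : ∀ i, V.valuation ((b i : ℂ) - jj (τ i)) ≤ V.valuation (p : ℂ) := by
    intro i
    refine near hl hl2 hpV P (hdet i) (htr i) (hfix i) ?_
    have h2 := val_lt_of hA1 hA2 (hb i)
    rw [map_sub, map_intCast, ← hτ i] at h2
    exact h2
  have haV : V.valuation (a : ℂ) ≤ V.valuation (p : ℂ) := by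
    obtain ⟨a', rfl⟩ := hpa
    push_cast
    rw [map_mul]
    calc V.valuation (p : ℂ) * V.valuation (a' : ℂ) ≤ V.valuation (p : ℂ) * 1 :=
          mul_le_mul_right (val_le (intCast_mem V a')) _
      _ = _ := mul_one _
  -- coordinates which are integral are near
  have hnear : ∀ i, y i ∈ V → V.valuation (x i - jj (τ i)) ≤ V.valuation (p : ℂ) := by
    intro i hi
    have e : x i - jj (τ i) = ((b i : ℂ) - jj (τ i)) + a * y i := by
      rw [hxy i]
      ring
    rw [e]
    refine (Valuation.map_add _ _ _).trans (max_le (hbc i) ?_)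
    rw [map_mul]
    calc V.valuation (a : ℂ) * V.valuation (y i) ≤ V.valuation (p : ℂ) * 1 :=
          mul_le_mul' haV (val_le hi)
      _ = _ := mul_one _
  have hexp : ∀ k : ℕ, 2 ≤ (p - 1) * p ^ k := by
    intro k
    have h2 := hl.two_le
    have h3 : 0 < p ^ k := pow_pos hl.pos k
    have h4 : 2 ≤ p - 1 := by omega
    calc 2 = 2 * 1 := rfl
      _ ≤ _ := Nat.mul_le_mul h4 h3
  have hQ : ∀ i, y i ∈ V → V.valuation (x i - jj (τ i)) < 1 ∧ ∀ k : ℕ,
      V.valuation (x i - jj (τ i)) ^ ((p - 1) * p ^ k) ≠ V.valuation (p : ℂ) := by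
    intro i hi
    have h2 := hnear i hi
    refine ⟨lt_of_le_of_lt h2 hpV, fun k => ne_of_lt ?_⟩
    calc V.valuation (x i - jj (τ i)) ^ ((p - 1) * p ^ k)
        ≤ V.valuation (p : ℂ) ^ ((p - 1) * p ^ k) := pow_le_pow_left' h2 _
      _ ≤ V.valuation (p : ℂ) ^ 2 := pow_le_pow_right_of_le_one' hpV.le (hexp k)
      _ = V.valuation (p : ℂ) * V.valuation (p : ℂ) := sq _
      _ < V.valuation (p : ℂ) * 1 := (mul_lt_mul_iff_right₀ (zero_lt_iff.2 hp0)).2 hpV
      _ = _ := mul_one _
  set A : Set (Fin n) := {i | ¬ (V.valuation (x i - jj (τ i)) < 1 ∧ ∀ k : ℕ,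
        V.valuation (x i - jj (τ i)) ^ ((p - 1) * p ^ k) ≠ V.valuation (p : ℂ))} with hA
  have hdis : Disjoint A {i | x i = jj (τ i)} := by
    rw [Set.disjoint_left]
    intro i hi hi'
    apply hi
    have h2 : x i - jj (τ i) = 0 := sub_eq_zero.2 hi'
    rw [h2, map_zero]
    refine ⟨zero_lt_one, fun k => ?_⟩
    rw [zero_pow (by have := hexp k; omega)]
    exact hp0.symm
  have hcount : n ≤ r + {i | y i ∉ V ∨ (y i ∈ V ∧ x i = jj (τ i))}.ncard := by
    refine hloc.trans ?_
    rw [add_assoc, ← Set.ncard_union_eq hdis (Set.toFinite _) (Set.toFinite _)]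
    refine Nat.add_le_add_left (Set.ncard_le_ncard ?_ (Set.toFinite _)) _
    rintro i (hi | hi)
    · left
      intro hyi
      exact hi (hQ i hyi)
    · by_cases hyi : y i ∈ V
      · exact Or.inr ⟨hyi, hi⟩
      · exact Or.inl hyi
  -- the residues
  let π : 𝓞 K →+* V :=
    { toFun := fun a => ⟨σ a, (V.valuation_le_one_iff _).1 (hA1 a)⟩
      map_one' := Subtype.ext (by simp)
      map_mul' := fun a b => Subtype.ext (by simp)
      map_zero' := Subtype.ext (by simp)
      map_add' := fun a b => Subtype.ext (by simp) }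
  let κ := IsLocalRing.ResidueField V
  let res : V →+* κ := IsLocalRing.residue V
  have hker' : RingHom.ker mk ≤ RingHom.ker (res.comp π) := by
    intro a ha
    rw [RingHom.mem_ker, hker] at ha
    show IsLocalRing.residue V (π a) = 0
    rw [IsLocalRing.residue_eq_zero_iff, V.valuation_lt_one_iff]
    exact (hA2 a).2 ha
  let ι : k₀ →+* κ := RingHom.liftOfSurjective mk hmk ⟨res.comp π, hker'⟩
  have hι : ∀ z, ι (mk z) = res (π z) := fun z =>
    RingHom.liftOfRightInverse_comp_apply mk _ _ _ z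
  let _ : Algebra k₀ κ := ι.toAlgebra
  have hιa : ∀ z, algebraMap k₀ κ z = ι z := fun _ => rfl
  -- the coordinates
  have hco : ∀ i, ∃ ξ ζ : V, (ξ : ℂ) = y i * ζ ∧ (res ξ ≠ 0 ∨ res ζ ≠ 0) ∧
      (y i ∉ V → res ζ = 0) ∧ (y i ∈ V → ζ = 1) := by
    intro i
    by_cases hi : y i ∈ V
    · exact ⟨⟨y i, hi⟩, 1, by simp, Or.inr (by simp), fun h => absurd hi h, fun _ => rfl⟩
    · have hgt : 1 < V.valuation (y i) := by
        rw [← not_le, V.valuation_le_one_iff]
        exact hi
      have hne : y i ≠ 0 := by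
        rintro h
        rw [h, map_zero] at hgt
        exact absurd hgt (not_lt.2 zero_le)
      have hinv : (y i)⁻¹ ∈ V := (V.mem_or_inv_mem (y i)).resolve_left hi
      have hlt : V.valuation (y i)⁻¹ < 1 := by
        rw [map_inv₀]
        exact inv_lt_one_of_one_lt₀ hgt
      refine ⟨1, ⟨(y i)⁻¹, hinv⟩, ?_, Or.inl (by simp), fun _ => ?_, fun h => absurd h hi⟩
      · show (1 : ℂ) = y i * (y i)⁻¹
        rw [mul_inv_cancel₀ hne]
      · show IsLocalRing.residue V _ = 0
        rw [IsLocalRing.residue_eq_zero_iff, V.valuation_lt_one_iff]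
        exact hlt
  choose ξ ζ hξ hne hzero hone using hco
  have hF : ∀ t, (F t).eval (Int.castRingHom κ) (fun i => res (ξ i)) (fun i => res (ζ i)) = 0 := by
    intro t
    have h2 : (F t).eval (Int.castRingHom V) ξ ζ = 0 := by
      apply Subtype.ext
      have h3 := MForm.map_eval (F t) (Int.castRingHom V) V.subtype ξ ζ
      have h4 : V.subtype.comp (Int.castRingHom V) = Int.castRingHom ℂ := RingHom.ext_int _ _
      rw [h4] at h3
      have h5 : (fun i => V.subtype (ξ i)) = fun i => y i * V.subtype (ζ i) := funext hξ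
      rw [h5, MForm.eval_mul, hy t, zero_mul] at h3
      exact h3
    have h3 := MForm.map_eval (F t) (Int.castRingHom V) res ξ ζ
    have h4 : res.comp (Int.castRingHom V) = Int.castRingHom κ := RingHom.ext_int _ _
    rw [h4, h2, map_zero] at h3
    exact h3.symm
  have hind : AlgebraicIndependent k₀ (fun i : W => res (ξ i) / res (ζ i)) := by
    have e : (fun i : W => res (ξ i) / res (ζ i)) = fun i : W => res (ξ i) := by
      funext i
      rw [hone i (hyW i i.2), map_one, div_one]
    rw [e, algebraicIndependent_iff]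
    intro Q hQ
    obtain ⟨Q, rfl⟩ := MvPolynomial.map_surjective mk hmk Q
    have h7 : MvPolynomial.map (Ideal.Quotient.mk v.asIdeal) Q = 0 → MvPolynomial.map mk Q = 0 := by
      intro h
      ext μ
      have h8 := congrArg (MvPolynomial.coeff μ) h
      rw [MvPolynomial.coeff_map, MvPolynomial.coeff_zero, Ideal.Quotient.eq_zero_iff_mem] at h8
      rw [MvPolynomial.coeff_map, MvPolynomial.coeff_zero]
      exact (hker _).2 h8
    apply h7
    rw [← hV2 Q]
    have h2 : MvPolynomial.aeval (fun i : W => y i) Q =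
        ((MvPolynomial.eval₂ π (fun i : W => ξ i) Q : V) : ℂ) := by
      have h3 := MvPolynomial.eval₂_comp_left V.subtype π (fun i : W => ξ i) Q
      have h4 : (fun i : W => y i) = V.subtype ∘ fun i : W => ξ i := by
        funext i
        simp only [Function.comp]
        have := hξ i
        rw [hone i (hyW i i.2)] at this
        simpa using this.symm
      rw [MvPolynomial.aeval_def, h4]
      exact h3.symm
    rw [h2, ← V.valuation_lt_one_iff, ← IsLocalRing.residue_eq_zero_iff]
    have h5 := MvPolynomial.eval₂_comp_left res π (fun i : W => ξ i) Q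
    have h6 : MvPolynomial.aeval (fun i : W => res (ξ i)) (MvPolynomial.map mk Q) =
        MvPolynomial.eval₂ (res.comp π) (res ∘ fun i : W => ξ i) Q := by
      rw [MvPolynomial.aeval_def, MvPolynomial.eval₂_map]
      have h9 : (algebraMap k₀ κ).comp mk = res.comp π := RingHom.ext fun z => hι z
      rw [h9]
      rfl
    rw [h6, ← h5] at hQ
    exact hQ
  have hgp := hR k₀ κ γ hγR (fun i => res (ξ i)) (fun i => res (ζ i)) hne hF W hind
  have hc2 : {i | y i ∉ V ∨ (y i ∈ V ∧ x i = jj (τ i))}.ncard ≤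
      {i | res (ζ i) = 0 ∨ res (ξ i) = -algebraMap k₀ κ (γ i) * res (ζ i)}.ncard := by
    refine Set.ncard_le_ncard (fun i hi => ?_) (Set.toFinite _)
    rcases hi with hi | ⟨hi, hx⟩
    · exact Or.inl (hzero i hi)
    · right
      rw [hone i hi, map_one, mul_one, hιa]
      have hyc : y i = -(σ (((b i : K) - c i) / a)) := by
        rw [map_div₀, map_sub, map_intCast, map_intCast, ← hτ i, ← hx, hxy i]
        field_simp
        ring
      -- the quotient is integral
      have hint : v.valuation K (((b i : K) - c i) / a) ≤ 1 := by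
        by_contra hcon
        push Not at hcon
        have h2 : v.valuation K (((b i : K) - c i) / a)⁻¹ < 1 := by
          rw [map_inv₀]
          exact inv_lt_one_of_one_lt₀ hcon
        have h3 := val_lt_of hA1 hA2 h2
        have h4 : V.valuation (y i) ≤ 1 := val_le hi
        rw [hyc, Valuation.map_neg] at h4
        rw [map_inv₀, map_inv₀] at h3
        have h5 : V.valuation (σ (((b i : K) - c i) / a)) ≠ 0 := by
          rw [Valuation.ne_zero_iff, Ne, map_eq_zero]
          rintro h6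
          rw [h6, map_zero] at hcon
          exact absurd hcon (not_lt.2 zero_le)
        exact absurd h4 (not_le.2 ((inv_lt_one₀ (zero_lt_iff.2 h5)).1 h3))
      obtain ⟨α, d, had⟩ := HeightOneSpectrum.exists_primeCompl_mul_eq_of_integer v _ hint
      have h6 : ((d : 𝓞 K) : K) * ((b i : K) - c i) = α * a := by
        have h7 : ((b i : K) - c i) / a * ((d : 𝓞 K) : K) = α := had
        rw [← h7]
        field_simp
      have h7 := hγ i α d d.2 h6
      -- `δ y = - α`
      have h8 : π (d : 𝓞 K) * ξ i = -π α := by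
        apply Subtype.ext
        have h9 : ((ξ i : V) : ℂ) = y i := by
          have := hξ i
          rw [hone i hi] at this
          simpa using this
        push_cast
        rw [h9, hyc]
        have h10 := congrArg σ had
        rw [map_mul] at h10
        show σ (algebraMap (𝓞 K) K (d : 𝓞 K)) * _ = -(σ (algebraMap (𝓞 K) K α))
        rw [← h10]
        ring
      have h9 := congrArg res h8
      rw [map_mul, map_neg, ← hι, ← hι, ← h7, map_mul] at h9
      have h10 : ι (mk (d : 𝓞 K)) ≠ 0 := by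
        rw [Ne, map_eq_zero, hker]
        exact d.2
      apply mul_left_cancel₀ h10
      rw [h9]
      ring
  omega

end Pool.Agent.H22.IA
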