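import Pool.Agent.H22.IA.Root

/-!
An ordinary singular modulus which is fixed by a matrix of determinant `p` and congruent to an
integer `b` is congruent to `b` modulo `p`.
-/

set_option autoImplicit false

namespace Pool.Agent.H22.IA

open UpperHalfPlane H294ZP Function Polynomial Pool.Agent.N135.ZO
open Pool.Agent.Y226 (ZZ ιZ ιZ_apply)

variable {V : ValuationSubring ℂ} {p : ℕ}

theorem trace_unit (hl : p.Prime) (hpV : V.valuation (p : ℂ) < 1) {t : ℤ} (htr : ¬ (p : ℤ) ∣ t) :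
    V.valuation (t : ℂ) = 1 := by
  have hcop : IsCoprime t (p : ℤ) := by
    have := (Nat.prime_iff_prime_int.1 hl).irreducible.coprime_iff_not_dvd.2 htr
    exact this.symm
  obtain ⟨a, b, hab⟩ := hcop
  have h1 : (t : ℂ) * (a : ℂ) = 1 + (p : ℂ) * (-(b : ℂ)) := by
    have : ((a * t + b * p : ℤ) : ℂ) = ((1 : ℤ) : ℂ) := by rw [hab]
    push_cast at this
    linear_combination this
  have h2 : V.valuation (1 + (p : ℂ) * (-(b : ℂ))) = 1 :=
    val_add_one (map_one _) (lt_mul_mem hpV (V.neg_mem _ (intCast_mem V b)))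
  rw [← h1] at h2
  exact (val_mul_one (intCast_mem V _) (intCast_mem V _) h2).1

/-- the canonical isogeny of degree `p` at a point fixed by a matrix of determinant `p` and trace
prime to `p` -/
theorem can_fix (hl : p.Prime) (hpV : V.valuation (p : ℂ) < 1) {τ : ℍ} (hτ : jj τ ∈ V) {M : M2}
    (hdet : M.det = p) (htr : ¬ (p : ℤ) ∣ M.trace) (hfix : N135.ZO.Rel M τ τ) :
    ∃ k, V.valuation (uu hl.pos k τ) = V.valuation (p : ℂ) ^ 12 ∧ jj (hh hl.pos k τ) = jj τ := by
  have hlZ : (0 : ℤ) < p := by exact_mod_cast hl.pos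
  have hMpos : 0 < M.det := by rw [hdet]; exact hlZ
  have key : ∀ N : M2, N.det = p → N135.ZO.Rel N τ τ →
      V.valuation (GG N τ τ) = V.valuation (p : ℂ) ^ 12 →
      ∃ k, V.valuation (uu hl.pos k τ) = V.valuation (p : ℂ) ^ 12 ∧ jj (hh hl.pos k τ) = jj τ := by
    intro N hN hrel hv
    have hNpos : 0 < N.det := by rw [hN]; exact hlZ
    obtain ⟨k, C, -, hCpos, hCdet, hCrel, hCGG⟩ := exists_fac hNpos hl (by rw [hN]) hrel
    have hC1 : C.det = 1 := by
      rw [hN] at hCdet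
      have : (1 : ℤ) * p = C.det * p := by rw [one_mul]; exact hCdet
      exact (mul_right_cancel₀ hlZ.ne' this).symm
    rw [GG_sl hC1 hCrel, one_mul] at hCGG
    refine ⟨k, ?_, (N135.ZO.Rel.jj hC1 hCrel).symm⟩
    rw [← hCGG, hv]
  have htrV : V.valuation ((M.trace : ℤ) : ℂ) = 1 := trace_unit hl hpV htr
  have hΔ := ModularForm.discriminant_ne_zero τ
  have hd1 := den_ne hMpos τ
  have hd2 := den_ne (M := M.adjugate) (by rw [det_adj]; exact hMpos) τ
  have hsum : den M τ + den M.adjugate τ = (M.trace : ℂ) := by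
    unfold den
    rw [Matrix.adjugate_fin_two, Matrix.trace_fin_two]
    simp only [Matrix.of_apply, Matrix.cons_val', Matrix.cons_val_zero, Matrix.cons_val_one,
      Matrix.cons_val_fin_one]
    push_cast
    ring
  have hmul : den M τ * den M.adjugate τ = (M.det : ℂ) := by
    have h1 := den_mul (A := M.adjugate) (B := M) hfix
    have h2 : den (M.adjugate * M) τ = (M.det : ℂ) := by
      rw [Matrix.adjugate_mul]
      simp [den]
    rw [mul_comm, ← h1, h2]
  have hpow1 : den M τ ^ 12 = GG M.adjugate τ τ := by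
    unfold GG
    rw [det_adj, mul_div_assoc, div_self hΔ, mul_one, ← hmul, mul_div_assoc, div_self hd2, mul_one]
  have hpow2 : den M.adjugate τ ^ 12 = GG M τ τ := by
    unfold GG
    rw [mul_div_assoc, div_self hΔ, mul_one, ← hmul, mul_comm, mul_div_assoc, div_self hd1, mul_one]
  have hm1 : V.valuation (den M τ) ≤ 1 := by
    have h1 := val_le (V := V) (GG_mem (M := M.adjugate) (by rw [det_adj]; exact hMpos)
      (rel_adj hfix) hτ)
    rw [← hpow1, map_pow] at h1
    exact (pow_le_one_iff (by norm_num)).1 h1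
  have hm2 : V.valuation (den M.adjugate τ) ≤ 1 := by
    have h1 := val_le (V := V) (GG_mem (M := M) hMpos hfix hτ)
    rw [← hpow2, map_pow] at h1
    exact (pow_le_one_iff (by norm_num)).1 h1
  have hprod : V.valuation (den M τ) * V.valuation (den M.adjugate τ) = V.valuation (p : ℂ) := by
    rw [← map_mul, hmul, hdet]
    norm_cast
  rcases eq_or_lt_of_le hm1 with h1 | h1
  · refine key M hdet hfix ?_
    rw [← hpow2, map_pow, ← hprod, h1, one_mul]
  rcases eq_or_lt_of_le hm2 with h2 | h2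
  · refine key M.adjugate (by rw [det_adj, hdet]) (rel_adj hfix) ?_
    rw [← hpow1, map_pow, ← hprod, h2, mul_one]
  · exfalso
    have h3 := Valuation.map_add_lt V.valuation h1 h2
    rw [hsum, htrV] at h3
    exact lt_irrefl _ h3

/-- The singular modulus is congruent to the integer modulo `p`. -/
theorem near (hl : p.Prime) (hl2 : p ≠ 2) (hpV : V.valuation (p : ℂ) < 1) (P : Pkg p hl.pos)
    {τ : ℍ} {M : M2} (hdet : M.det = p) (htr : ¬ (p : ℤ) ∣ M.trace) (hfix : N135.ZO.Rel M τ τ)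
    {b : ℤ} (hb : V.valuation ((b : ℂ) - jj τ) < 1) :
    V.valuation ((b : ℂ) - jj τ) ≤ V.valuation (p : ℂ) := by
  have hbV : (b : ℂ) ∈ V := intCast_mem V b
  have hτ : jj τ ∈ V := by
    have : jj τ = (b : ℂ) - ((b : ℂ) - jj τ) := by ring
    rw [this]
    exact sub_mem hbV ((V.valuation_le_one_iff _).1 hb.le)
  have hord : V.valuation (P.h.eval₂ ιZ (jj τ)) = 1 :=
    ord_of_fix hl hpV P hτ (e := 1) one_pos (by rw [hdet, pow_one]) htr hfix
  obtain ⟨k, hk, hk'⟩ := can_fix hl hpV hτ hdet htr hfix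
  obtain ⟨τ₀, hτ₀⟩ := Pool.Agent.T6.H15.MZ.jj_surjective (b : ℂ)
  set s : V := ⟨jj τ, hτ⟩ with hs
  set B : V := ⟨(b : ℂ), hbV⟩ with hB
  have hsB : ¬ IsUnit (B - s) := by
    rw [V.valuation_eq_one_iff]
    push_cast
    exact hb.ne
  have hus : IsUnit (P.h.eval₂ (ρV V) s) := by
    rw [V.valuation_eq_one_iff, coe_e1]
    exact hord
  have huB : IsUnit (P.h.eval₂ (ρV V) B) := by
    obtain ⟨a, ha⟩ := e1_sub (ρV V) P.h s B
    have : P.h.eval₂ (ρV V) B = P.h.eval₂ (ρV V) s + (B - s) * a := by linear_combination ha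
    rw [this]
    exact unit_add hus (not_unit_mul hsB)
  have hordB : V.valuation (P.h.eval₂ ιZ (jj τ₀)) = 1 := by
    have h1 := (V.valuation_eq_one_iff _).1 huB
    rw [coe_e1] at h1
    rw [hτ₀]
    exact h1
  obtain ⟨k₀, hk₀, -⟩ := exists_can hl hl2 hpV P (by rw [hτ₀]; exact hbV) hordB
  have hw : jj (hh hl.pos k₀ τ₀) ∈ V := (can_next hl hpV (by rw [hτ₀]; exact hbV) hk₀ P).1
  have e1 : IsPhi P s s := isPhi_of hl P hk rfl (by rw [hk'])
  have e2 : IsPhi P B ⟨_, hw⟩ := isPhi_of hl P hk₀ hτ₀.symm rfl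
  obtain ⟨a, ha⟩ := phi_pow P hpV e2 huB
  obtain ⟨c, d, -, hcd⟩ := phi_sub P hpV hus huB e1 e2
  rw [ha] at hcd
  obtain ⟨z, hz⟩ : ∃ z : ℤ, b ^ p = b + p * z := by
    have _ : Fact p.Prime := ⟨hl⟩
    have h6 : ((b ^ p - b : ℤ) : ZMod p) = 0 := by
      push_cast
      rw [ZMod.pow_card, sub_self]
    obtain ⟨e, he⟩ := (ZMod.intCast_zmod_eq_zero_iff_dvd _ _).1 h6
    exact ⟨e, by linarith⟩
  have hzV : B ^ p = B + p * (z : V) := by
    have h7 := congrArg (fun t : ℤ => (t : V)) hz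
    push_cast at h7
    have h8 : B = (b : V) := Subtype.ext (by push_cast; rfl)
    rw [h8]
    exact h7
  obtain ⟨r, hr⟩ := pow_prime_add hl hl2 s (B - s)
  rw [add_sub_cancel] at hr
  -- `B - s + p a' = (B - s) (nonunit)`
  obtain ⟨m, hm⟩ : ∃ m, p = m + 2 := ⟨p - 2, by
    have := hl.two_le
    omega⟩
  have e3 : (B - s) ^ p = (B - s) * (B - s) ^ (m + 1) := by
    nth_rw 1 [hm]
    ring
  rw [e3] at hr
  have hnu : ¬ IsUnit ((p * s ^ (p - 1) + p * (B - s) * r + (B - s) ^ (m + 1)) * c + p * d) := by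
    have hpu := not_unit_p hpV
    have m1 := (IsLocalRing.mem_maximalIdeal _).2 hsB
    have m3 := (IsLocalRing.mem_maximalIdeal _).2 hpu
    refine (IsLocalRing.mem_maximalIdeal _).1 (Ideal.add_mem _ (Ideal.mul_mem_right _ _
      (Ideal.add_mem _ (Ideal.add_mem _ (Ideal.mul_mem_right _ _ m3) ?_) ?_))
      (Ideal.mul_mem_right _ _ m3))
    · rw [mul_assoc]
      exact Ideal.mul_mem_right _ _ m3
    · exact Ideal.pow_mem_of_mem _ m1 _ (Nat.succ_pos m)
  set q := (p * s ^ (p - 1) + p * (B - s) * r + (B - s) ^ (m + 1)) * c + p * d with hq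
  have hu : IsUnit (1 + q * (-1)) := unit_add isUnit_one (not_unit_mul hnu)
  obtain ⟨w, hw'⟩ := hu.exists_right_inv
  have e4 : (B - s) * (1 + q * (-1)) = p * (-((z : V) + a)) := by
    rw [hq]
    linear_combination hcd - hzV * (1 - c) + (c : V) * (hr - hzV)
  have e5 : B - s = p * (-((z : V) + a) * w) := by
    linear_combination w * e4 - (B - s) * hw'
  have e6 := congrArg (fun t : V => (t : ℂ)) e5
  push_cast at e6
  have e7 : (b : ℂ) - jj τ = (p : ℂ) * (-((z : ℂ) + a) * w) := e6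
  rw [e7, map_mul]
  calc V.valuation (p : ℂ) * _ ≤ V.valuation (p : ℂ) * 1 := by
        refine mul_le_mul_right (val_le ?_) _
        exact mul_mem (V.neg_mem _ (add_mem (intCast_mem V z) a.2)) w.2
    _ = _ := mul_one _

end Pool.Agent.H22.IA
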