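import Pool.Agent.H22.IA.Glo
import Pool.Graph.R_seed8.H294ZP.Main

/-!
The data at a prime number.
-/

set_option autoImplicit false

namespace Pool.Agent.H22.IA

open UpperHalfPlane H294ZP Function NumberField IsDedekindDomain Pool.Agent.N135.ZO

/-- a place of `ℂ` above `p` -/
theorem exists_place {p : ℕ} (hp : p.Prime) : ∃ V : ValuationSubring ℂ, V.valuation (p : ℂ) < 1 := by
  have hprime : (Ideal.span {(p : ℤ)}).IsPrime := by
    rw [Ideal.span_singleton_prime (by exact_mod_cast hp.ne_zero)]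
    exact Nat.prime_iff_prime_int.1 hp
  have hx : AlgebraicIndependent ℤ (Empty.elim : Empty → ℂ) := by
    rw [algebraicIndependent_empty_type_iff]
    exact Int.cast_injective
  obtain ⟨V, -, hV⟩ := exists_place_gauss (Ideal.span {(p : ℤ)}) (Empty.elim : Empty → ℂ) hx
  refine ⟨V, ?_⟩
  have h1 := (hV (MvPolynomial.C (p : ℤ))).2 (by
    rw [MvPolynomial.map_C, MvPolynomial.C_eq_zero, Ideal.Quotient.eq_zero_iff_mem]
    exact Ideal.subset_span rfl)
  rw [MvPolynomial.aeval_C] at h1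
  simpa using h1

theorem val_int {V : ValuationSubring ℂ} {z : ℂ} (hz : IsIntegral ℤ z) : V.valuation z ≤ 1 := by
  rw [V.valuation_le_one_iff]
  have h1 : IsIntegral V z := hz.tower_top
  obtain ⟨y, hy⟩ := IsIntegrallyClosed.isIntegral_iff.1 h1
  rw [← hy]
  exact y.2

theorem isIntegral_fix {p : ℕ} (hp : p.Prime) {τ : ℍ} {M : M2} (hdet : M.det = p)
    (h : N135.ZO.Rel M τ τ) : IsIntegral ℤ (jj τ) :=
  singular_modulus_integral τ (isCM_fix hp hdet h)

theorem cast1 {K : Type} [Field K] [NumberField K] (α δ : 𝓞 K) (u q : ℤ) :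
    ((α * (u : 𝓞 K) - δ * (q : 𝓞 K) : 𝓞 K) : K) = (α : K) * u - δ * q := by
  simp only [RingOfIntegers.coe_eq_algebraMap, map_sub, map_mul, map_intCast]

theorem cast2 {K : Type} [Field K] [NumberField K] (α δ : 𝓞 K) (u q : ℤ) (p : ℕ) :
    ((α * ((p : 𝓞 K) * (u : 𝓞 K)) - δ * (q : 𝓞 K) : 𝓞 K) : K) = (α : K) * (p * u) - δ * q := by
  simp only [RingOfIntegers.coe_eq_algebraMap, map_sub, map_mul, map_intCast, map_natCast]

/-- the data at a prime -/
theorem exists_data {p : ℕ} (hp : p.Prime) (h5 : 5 ≤ p) :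
    ∃ (k₀ : Type) (_ : Field k₀) (_ : CharP k₀ p) (κ : ZMod p → k₀) (t : ZMod p → ℕ),
    (∀ β, (t β : ℤ) ^ 2 < 4 * p) ∧ (∀ s, {β | t β = s}.ncard ≤ (SS p s).ncard) ∧
    ∀ (n : ℕ) (T : Type) (F : T → MForm ℤ n) (m : ℕ) (R : MvPolynomial (Fin n) ℤ) (_ : GP F m R)
      (a : ℤ) (_ : a ≠ 0) (_ : (p : ℤ) ∣ a) (u : ℤ) (_ : ¬ (p : ℤ) ∣ u)
      (_ : a = p * u ∨ (p : ℤ) ^ 2 ∣ a) (b : Fin n → ℤ)
      (_ : ∀ i, (b i : ZMod p) ≠ 0) (_ : ∀ i, (b i : ZMod p) ≠ 1728) (_ : ∀ i, t (b i) ≠ 0)
      (_ : ∀ i j, i ≠ j →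
        ¬ IsSquare ((4 * (p : ℤ) - t (b i) ^ 2) * (4 * p - t (b j) ^ 2)))
      (_ : MvPolynomial.aeval (fun i => (κ (b i) + ((b i / p : ℤ) : k₀)) / (u : k₀)) R ≠ 0)
      (_ : ∀ i, κ (b i) + ((b i / p : ℤ) : k₀) ≠ 0)
      (r : ℕ) (Z : SpecialDatum n r) (x : Fin n → ℂ) (_ : x ∈ Z.locus) (y : Fin n → ℂ)
      (_ : ∀ t, (F t).eval (Int.castRingHom ℂ) y (fun _ => 1) = 0)
      (_ : ∀ i, x i = b i + a * y i)
      (W : Finset (Fin n)) (_ : AlgebraicIndependent ℚ (fun i : W => x i)),
      n + W.card ≤ m + r := by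
  classical
  have hfact : Fact p.Prime := ⟨hp⟩
  have hp2 : p ≠ 2 := by omega
  obtain ⟨V, hpV⟩ := exists_place hp
  choose τ M hdet hrel hnear using fun β : ZMod p => exists_root hp hpV (β.val : ℤ)
  have hint : ∀ β, IsIntegral ℤ (jj (τ β)) := fun β => isIntegral_fix hp (hdet β) (hrel β)
  let K : IntermediateField ℚ ℂ := IntermediateField.adjoin ℚ (Set.range fun β => jj (τ β))
  have _ : FiniteDimensional ℚ K := by
    refine IntermediateField.finiteDimensional_adjoin ?_
    rintro _ ⟨β, rfl⟩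
    exact (hint β).tower_top
  have _ : NumberField K := { to_charZero := inferInstance, to_finiteDimensional := inferInstance }
  let σ : K →+* ℂ := K.val.toRingHom
  have hσ : ∀ z : K, σ z = (z : ℂ) := fun _ => rfl
  have hA1 : ∀ z : 𝓞 K, V.valuation (σ z) ≤ 1 := by
    intro z
    exact val_int (map_isIntegral_int (σ.comp (algebraMap (𝓞 K) K)) (RingOfIntegers.isIntegral z))
  let π : 𝓞 K →+* V :=
    { toFun := fun a => ⟨σ a, (V.valuation_le_one_iff _).1 (hA1 a)⟩
      map_one' := Subtype.ext (by simp)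
      map_mul' := fun a b => Subtype.ext (by simp)
      map_zero' := Subtype.ext (by simp)
      map_add' := fun a b => Subtype.ext (by simp) }
  let 𝔭 : Ideal (𝓞 K) := Ideal.comap π (IsLocalRing.maximalIdeal V)
  have h𝔭 : ∀ z : 𝓞 K, V.valuation (σ z) < 1 ↔ z ∈ 𝔭 := by
    intro z
    rw [Ideal.mem_comap, ← IsLocalRing.residue_eq_zero_iff, IsLocalRing.residue_eq_zero_iff,
      V.valuation_lt_one_iff]
    exact Iff.rfl
  have hp𝔭 : (p : 𝓞 K) ∈ 𝔭 := by
    rw [← h𝔭]
    simpa using hpV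
  let v : HeightOneSpectrum (𝓞 K) :=
    { asIdeal := 𝔭
      isPrime := Ideal.comap_isPrime _ _
      ne_bot := by
        intro h
        rw [h, Ideal.mem_bot] at hp𝔭
        exact hp.ne_zero (by exact_mod_cast hp𝔭) }
  have hA2 : ∀ z : 𝓞 K, V.valuation (σ z) < 1 ↔ z ∈ v.asIdeal := h𝔭
  -- the integers
  have hcK : ∀ β, jj (τ β) ∈ K := fun β =>
    IntermediateField.subset_adjoin _ _ ⟨β, rfl⟩
  have hcO : ∀ β, ∃ z : 𝓞 K, ((z : K) : ℂ) = jj (τ β) := by
    intro β
    refine ⟨⟨⟨jj (τ β), hcK β⟩, ?_⟩, rfl⟩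
    have : IsIntegral ℤ ((⟨jj (τ β), hcK β⟩ : K) : ℂ) := hint β
    exact (isIntegral_algHom_iff (K.val.restrictScalars ℤ) K.val.injective).1 this
  choose C hC using hcO
  have hlt : ∀ z : 𝓞 K, v.valuation K (z : K) < 1 ↔ V.valuation (σ z) < 1 := by
    intro z
    rw [hA2]
    exact v.valuation_lt_one_iff_mem z
  have hle : ∀ z : K, V.valuation (σ z) ≤ 1 → v.valuation K z ≤ 1 := by
    intro z hz
    by_contra hcon
    push Not at hcon
    have h2 : v.valuation K z⁻¹ < 1 := by
      rw [map_inv₀]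
      exact inv_lt_one_of_one_lt₀ hcon
    have h3 := val_lt_of hA1 hA2 h2
    rw [map_inv₀, map_inv₀] at h3
    have h5 : V.valuation (σ z) ≠ 0 := by
      rw [Valuation.ne_zero_iff, Ne, map_eq_zero]
      rintro h6
      rw [h6, map_zero] at hcon
      exact absurd hcon (not_lt.2 zero_le)
    exact absurd hz (not_le.2 ((inv_lt_one₀ (zero_lt_iff.2 h5)).1 h3))
  -- the residue field
  obtain ⟨k₀, _, mk, hmk, hker⟩ : ∃ (k₀ : Type) (_ : Field k₀) (mk : 𝓞 K →+* k₀),
      Function.Surjective mk ∧ ∀ z, mk z = 0 ↔ z ∈ v.asIdeal := by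
    have _ : v.asIdeal.IsMaximal := v.isMaximal
    exact ⟨𝓞 K ⧸ v.asIdeal, Ideal.Quotient.field v.asIdeal, Ideal.Quotient.mk v.asIdeal,
      Ideal.Quotient.mk_surjective, fun z => Ideal.Quotient.eq_zero_iff_mem⟩
  have hpk : ((p : ℕ) : k₀) = 0 := by
    have := (hker p).2 hp𝔭
    rwa [map_natCast] at this
  have hchar : CharP k₀ p := (CharP.charP_iff_prime_eq_zero hp).2 hpk
  -- the constants
  have hκ : ∀ β : ZMod p, ∃ κ : k₀, ¬ (p : ℤ) ∣ (M β).trace →
      ∀ α δ : 𝓞 K, δ ∉ v.asIdeal → (δ : K) * ((β.val : K) - C β) = α * p →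
        mk δ * κ = mk α := by
    intro β
    by_cases htr : (p : ℤ) ∣ (M β).trace
    · exact ⟨0, fun h => absurd htr h⟩
    obtain ⟨P⟩ := exists_pkg hp hp2
    have h1 := near hp hp2 hpV P (hdet β) htr (hrel β) (hnear β)
    have hpC : (p : ℂ) ≠ 0 := by exact_mod_cast hp.ne_zero
    have hpK : (p : K) ≠ 0 := by exact_mod_cast hp.ne_zero
    have hp0 : V.valuation (p : ℂ) ≠ 0 := by
      rw [Valuation.ne_zero_iff]
      exact hpC
    have h2 : v.valuation K (((β.val : K) - C β) / p) ≤ 1 := by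
      apply hle
      have h3 : σ (((β.val : K) - C β) / p) = ((β.val : ℤ) - jj (τ β)) / p := by
        rw [map_div₀, map_sub, map_natCast, map_natCast, hσ, hC]
        push_cast
        rfl
      rw [h3, map_div₀]
      exact (div_le_one₀ (zero_lt_iff.2 hp0)).2 h1
    obtain ⟨α', d, had⟩ := HeightOneSpectrum.exists_primeCompl_mul_eq_of_integer v _ h2
    have hd0 : mk (d : 𝓞 K) ≠ 0 := fun h => d.2 ((hker _).1 h)
    have had' : ((d : 𝓞 K) : K) * ((β.val : K) - C β) = α' * p := by
      have h7 : ((β.val : K) - C β) / p * ((d : 𝓞 K) : K) = α' := had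
      rw [← h7]
      field_simp
    refine ⟨mk α' / mk d, fun _ α δ hδ h => ?_⟩
    have h4 : δ * α' = d * α := by
      have h5 : ((δ * α' : 𝓞 K) : K) = ((d * α : 𝓞 K) : K) := by
        push_cast
        apply mul_right_cancel₀ hpK
        linear_combination (d : 𝓞 K) * h - (δ : K) * had'
      exact_mod_cast h5
    have h6 := congrArg mk h4
    rw [map_mul, map_mul] at h6
    rw [← mul_div_assoc, h6, mul_div_assoc, mul_comm, div_mul_cancel₀ _ hd0]
  choose κ hκ using hκ
  refine ⟨k₀, inferInstance, hchar, κ, fun β => (M β).trace.natAbs, ?_, ?_, ?_⟩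
  · intro β
    have h1 := trace_lt hp (hdet β) (hrel β)
    rw [Int.natAbs_sq]
    exact h1
  · intro s
    refine Set.ncard_le_ncard_of_injOn (fun β => jj (τ β)) ?_ ?_ ?_
    · intro β hβ
      exact ⟨τ β, M β, hdet β, hrel β, hβ, rfl⟩
    · intro β _ β' _ h
      dsimp only at h
      by_contra hne
      have h1 := hnear β
      have h2 := hnear β'
      rw [h] at h1
      have h3 : V.valuation (((β.val : ℤ) - (β'.val : ℤ) : ℤ) : ℂ) < 1 := by
        have e : (((β.val : ℤ) - (β'.val : ℤ) : ℤ) : ℂ) = (((β.val : ℤ) : ℂ) - jj (τ β')) -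
            (((β'.val : ℤ) : ℂ) - jj (τ β')) := by
          push_cast
          ring
        rw [e]
        exact Valuation.map_sub_lt _ h1 h2
      have h4 : ¬ (p : ℤ) ∣ ((β.val : ℤ) - (β'.val : ℤ)) := by
        intro h5
        apply hne
        have h6 : (((β.val : ℤ) - (β'.val : ℤ) : ℤ) : ZMod p) = 0 :=
          (ZMod.intCast_zmod_eq_zero_iff_dvd _ _).2 h5
        push_cast at h6
        rw [ZMod.natCast_zmod_val, ZMod.natCast_zmod_val] at h6
        exact sub_eq_zero.1 h6
      rw [trace_unit hp hpV h4] at h3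
      exact lt_irrefl _ h3
    · obtain ⟨C', -, hC'⟩ := card_SS 1 one_pos
      exact (hC' p hp s).1
  · intro n T F m R hR a ha hpa u hu hau b hb0 hb1 ht hsq hγ hγ0 r Z x hxZ y hy hxy W hW
    have htr : ∀ i, ¬ (p : ℤ) ∣ (M (b i)).trace := by
      intro i hdvd
      have h1 := trace_lt hp (hdet (b i)) (hrel (b i))
      have h2 : (M (b i)).trace ≠ 0 := fun h => ht i (by
        dsimp only
        rw [h]
        rfl)
      obtain ⟨q, hq⟩ := hdvd
      have hq0 : q ≠ 0 := by
        rintro rfl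
        exact h2 (by rw [hq, mul_zero])
      have h3 : 1 ≤ q ^ 2 := by
        have := sq_pos_of_ne_zero hq0
        omega
      rw [hq, mul_pow] at h1
      have h4 : (5 : ℤ) ≤ p := by exact_mod_cast h5
      have h6 : (p : ℤ) ^ 2 * 1 ≤ (p : ℤ) ^ 2 * q ^ 2 := mul_le_mul_of_nonneg_left h3 (sq_nonneg _)
      nlinarith
    have hbv : ∀ i, (b i : ℤ) = ((b i : ZMod p).val : ℤ) + p * (b i / p) := by
      intro i
      rw [ZMod.val_intCast]
      exact (Int.emod_add_mul_ediv _ _).symm
    have hbv' : ∀ i, (b i : K) = ((b i : ZMod p).val : K) + p * ((b i / p : ℤ) : K) := by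
      intro i
      have h1 := congrArg (fun z : ℤ => (z : K)) (hbv i)
      push_cast at h1
      exact h1
    have hbτ : ∀ i, V.valuation ((b i : ℂ) - jj (τ (b i))) < 1 := by
      intro i
      have h1 : ((b i : ℤ) : ℂ) = ((((b i : ZMod p).val : ℤ) + p * (b i / p) : ℤ) : ℂ) :=
        congrArg _ (hbv i)
      rw [Int.cast_add, Int.cast_mul, Int.cast_natCast] at h1
      have e : (b i : ℂ) - jj (τ (b i)) = ((((b i : ZMod p).val : ℤ) : ℂ) - jj (τ (b i))) +
          p * ((b i / p : ℤ) : ℂ) := by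
        rw [h1]
        push_cast
        ring
      rw [e]
      exact Valuation.map_add_lt _ (hnear _) (lt_mul_mem hpV (intCast_mem V _))
    have hval : ∀ z : 𝓞 K, V.valuation (σ z) = 1 → v.valuation K (z : K) = 1 := by
      intro z hz
      refine le_antisymm (v.valuation_le_one z) (not_lt.1 fun h => ?_)
      rw [hlt, hz] at h
      exact lt_irrefl _ h
    have hunit : ∀ e : ℤ, ∀ i, ((b i : ZMod p)) ≠ e → V.valuation (jj (τ (b i)) - e) = 1 := by
      intro e i he
      have h1 : ¬ (p : ℤ) ∣ (b i - e) := by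
        rw [← ZMod.intCast_zmod_eq_zero_iff_dvd]
        push_cast
        rw [sub_eq_zero]
        exact he
      have h2 := trace_unit hp hpV h1
      have h3 : jj (τ (b i)) - e = ((b i - e : ℤ) : ℂ) + (-((b i : ℂ) - jj (τ (b i)))) := by
        push_cast
        ring
      rw [h3]
      refine val_add_one h2 ?_
      rw [Valuation.map_neg]
      exact hbτ i
    refine glob_affine σ v hp hp2 hp𝔭 (fun i => (C (b i) : K)) (fun i => τ (b i))
      (fun i => (hC _).symm) (fun i => M (b i)) (fun i => hdet _) htr (fun i => hrel _) ?_ ?_ ?_ b ?_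
      ha hpa mk hmk hker (fun i => (κ (b i) + ((b i / p : ℤ) : k₀)) / (u : k₀)) ?_ F hR hγ Z hxZ y
      hy hxy W hW
    · intro i
      apply hval
      have h1 := hunit 0 i (by simpa using hb0 i)
      rw [Int.cast_zero, sub_zero] at h1
      rw [hσ, hC]
      exact h1
    · intro i
      have h1 := hunit 1728 i (by simpa using hb1 i)
      have h2 := hval (C (b i) - 1728) (by
        rw [← h1]
        congr 1
        rw [hσ, ← hC]
        push_cast
        rfl)
      have e : ((C (b i) : K) - 1728) = ((C (b i) - 1728 : 𝓞 K) : K) := by push_cast; rfl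
      rw [e]
      exact h2
    · intro i j hij hI
      have h1 := sq_of_isog hp (hdet (b i)) (hdet (b j)) (hrel (b i)) (hrel (b j)) hI
      apply hsq i j hij
      dsimp only
      rw [Int.natAbs_sq, Int.natAbs_sq]
      exact h1
    · intro i
      have e : ((b i : K) - (C (b i) : K)) = (((b i : 𝓞 K) - C (b i) : 𝓞 K) : K) := by
        push_cast
        rfl
      rw [e, hlt]
      have e2 : σ (((b i : 𝓞 K) - C (b i) : 𝓞 K) : K) = (b i : ℂ) - jj (τ (b i)) := by
        rw [hσ, ← hC]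
        push_cast
        rfl
      rw [e2]
      exact hbτ i
    · intro i α δ hδ h
      have hmkδ : mk δ ≠ 0 := fun h => hδ ((hker _).1 h)
      rw [hbv' i] at h
      rcases hau with hau | ⟨w, hw⟩
      · have h1 := hκ (b i) (htr i) (α * u - δ * ((b i / p : ℤ) : 𝓞 K)) δ hδ (by
          rw [hau] at h
          push_cast at h
          rw [cast1]
          linear_combination h)
        have hu0 : (u : k₀) ≠ 0 := by
          rw [Ne, CharP.intCast_eq_zero_iff k₀ p]
          exact hu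
        rw [map_sub, map_mul, map_mul, map_intCast, map_intCast] at h1
        rw [← mul_div_assoc, div_eq_iff hu0]
        linear_combination h1
      · exfalso
        have h1 := hκ (b i) (htr i) (α * (p * w) - δ * ((b i / p : ℤ) : 𝓞 K)) δ hδ (by
          rw [hw] at h
          push_cast at h
          rw [cast2]
          linear_combination h)
        rw [map_sub, map_mul, map_mul, map_mul, map_intCast, map_intCast, map_natCast, hpk, zero_mul,
          mul_zero] at h1
        have h2 : mk δ * (κ (b i) + ((b i / p : ℤ) : k₀)) = 0 := by linear_combination h1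
        exact (mul_ne_zero hmkδ (hγ0 i)) h2

end Pool.Agent.H22.IA
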