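import Pool.Agent.H22.IA.Thm

/-!
The number of the exceptional translates: several primes together.
-/

set_option autoImplicit false

namespace Pool.Agent.H22.IA

open H294ZP Pool.Agent.N135.ZO Finset

/-- the residues of `b` and of the quotient -/
def rsd (p : ℕ) {n : ℕ} (b : Fin n → ℤ) : (Fin n → ZMod p) × (Fin n → ZMod p) :=
  (fun i => ((b i : ℤ) : ZMod p), fun i => ((b i / p : ℤ) : ZMod p))

theorem rsd_dvd {p : ℕ} {n : ℕ} {b b' : Fin n → ℤ} (h : rsd p b = rsd p b') (i : Fin n) :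
    ((p ^ 2 : ℕ) : ℤ) ∣ b i - b' i := by
  have h1 : ((b i : ℤ) : ZMod p) = ((b' i : ℤ) : ZMod p) := congrFun (congrArg (fun x => x.1) h) i
  have h2 : ((b i / p : ℤ) : ZMod p) = ((b' i / p : ℤ) : ZMod p) :=
    congrFun (congrArg (fun x => x.2) h) i
  rw [ZMod.intCast_eq_intCast_iff'] at h1 h2
  have h3 : b i - b' i = p * (b i / p - b' i / p) := by
    have e1 := Int.emod_add_mul_ediv (b i) p
    have e2 := Int.emod_add_mul_ediv (b' i) p
    rw [h1] at e1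
    linear_combination e2 - e1
  have h4 : (p : ℤ) ∣ b i / p - b' i / p :=
    Int.ModEq.dvd (show b' i / p ≡ b i / p [ZMOD p] from h2.symm)
  obtain ⟨z, hz⟩ := h4
  rw [h3, hz]
  exact ⟨z, by push_cast; ring⟩

/-- integers in a box with residues in given sets -/
theorem card_box' {n : ℕ} {Ps : Finset ℕ} (hPs : ∀ p ∈ Ps, p.Prime)
    (B : ∀ p : ℕ, Finset ((Fin n → ZMod p) × (Fin n → ZMod p)))
    (N : ℕ) (A : Set (Fin n → ℤ)) (hA : ∀ b ∈ A, (∀ i, |b i| ≤ N) ∧ ∀ p ∈ Ps, rsd p b ∈ B p) :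
    A.Finite ∧ A.ncard * (∏ p ∈ Ps, p) ^ (2 * n) ≤
      (∏ p ∈ Ps, (B p).card) * (2 * (N + (∏ p ∈ Ps, p) ^ 2)) ^ n := by
  classical
  set d : ℕ := ∏ p ∈ Ps, p with hd
  have hd0 : 0 < d := prod_pos fun p hp => (hPs p hp).pos
  let I : Finset ℤ := Icc (-((N / d ^ 2 : ℕ) : ℤ) - 1) ((N / d ^ 2 : ℕ) : ℤ)
  let T : Finset ((∀ p : Ps, (Fin n → ZMod p) × (Fin n → ZMod p)) × (Fin n → ℤ)) :=
    (Fintype.piFinset fun p : Ps => B p) ×ˢ Fintype.piFinset fun _ => I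
  let g : (Fin n → ℤ) → (∀ p : Ps, (Fin n → ZMod p) × (Fin n → ZMod p)) × (Fin n → ℤ) := fun b =>
    (fun p => rsd p b, fun i => b i / ((d ^ 2 : ℕ) : ℤ))
  have hg : Function.Injective g := by
    intro b b' h
    funext i
    have h1 : ∀ p ∈ Ps, rsd p b = rsd p b' := fun p hp =>
      congrFun (congrArg (fun x => x.1) h) ⟨p, hp⟩
    have h2 : b i / ((d ^ 2 : ℕ) : ℤ) = b' i / ((d ^ 2 : ℕ) : ℤ) :=
      congrFun (congrArg (fun x => x.2) h) i
    have h3 : ((d ^ 2 : ℕ) : ℤ) ∣ b i - b' i := by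
      have h4 : ((∏ p ∈ Ps, ((p ^ 2 : ℕ) : ℤ))) ∣ b i - b' i := by
        refine Finset.prod_dvd_of_coprime ?_ fun p hp => rsd_dvd (h1 p hp) i
        intro p hp q hq hpq
        show IsCoprime ((p ^ 2 : ℕ) : ℤ) ((q ^ 2 : ℕ) : ℤ)
        rw [Nat.isCoprime_iff_coprime]
        exact Nat.Coprime.pow 2 2 ((Nat.coprime_primes (hPs p hp) (hPs q hq)).2 hpq)
      rw [hd]
      push_cast at h4 ⊢
      rwa [prod_pow] at h4
    have h5 : b i % ((d ^ 2 : ℕ) : ℤ) = b' i % ((d ^ 2 : ℕ) : ℤ) :=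
      ((Int.emod_emod_of_dvd _ (dvd_refl _)).symm.trans
        (Int.emod_emod_of_dvd _ (dvd_refl _))).trans
        ((Int.modEq_iff_dvd.2 h3).symm)
    rw [← Int.emod_add_mul_ediv (b i) ((d ^ 2 : ℕ) : ℤ),
      ← Int.emod_add_mul_ediv (b' i) ((d ^ 2 : ℕ) : ℤ), h5, h2]
  have hmaps : ∀ b ∈ A, g b ∈ T := by
    intro b hb
    obtain ⟨h1, h2⟩ := hA b hb
    rw [mem_product, Fintype.mem_piFinset]
    refine ⟨fun p => h2 p p.2, ?_⟩
    rw [Fintype.mem_piFinset]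
    intro i
    show b i / ((d ^ 2 : ℕ) : ℤ) ∈ I
    have h3 := abs_le.1 (h1 i)
    have h5 : 0 < d ^ 2 := by positivity
    have h6 : N < d ^ 2 * (N / d ^ 2 + 1) := Nat.lt_mul_div_succ N h5
    rw [mem_Icc]
    generalize d ^ 2 = P at h5 h6
    generalize N / P = M at h6
    have h5' : (0 : ℤ) < P := by exact_mod_cast h5
    have h6' : (N : ℤ) < P * (M + 1) := by exact_mod_cast h6
    constructor
    · rw [Int.le_ediv_iff_mul_le h5']
      nlinarith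
    · have : b i / (P : ℤ) < M + 1 := by
        rw [Int.ediv_lt_iff_lt_mul h5']
        nlinarith
      omega
  have hfin : A.Finite :=
    Set.Finite.of_finite_image (T.finite_toSet.subset (Set.image_subset_iff.2 hmaps))
      (Set.injOn_of_injective hg)
  refine ⟨hfin, ?_⟩
  have h1 : A.ncard ≤ T.card := by
    rw [← Set.ncard_coe_finset]
    exact Set.ncard_le_ncard_of_injOn g hmaps (Set.injOn_of_injective hg) (T.finite_toSet)
  have hI : I.card = 2 * (N / d ^ 2 + 1) := by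
    show (Icc _ _).card = _
    rw [Int.card_Icc]
    omega
  have h2 : T.card = (∏ p ∈ Ps, (B p).card) * (2 * (N / d ^ 2 + 1)) ^ n := by
    show ((Fintype.piFinset fun p : Ps => B p) ×ˢ Fintype.piFinset fun _ => I).card = _
    rw [card_product, Fintype.card_piFinset, Fintype.card_piFinset, prod_const, card_univ,
      Fintype.card_fin, hI, ← Finset.prod_coe_sort Ps (fun p => (B p).card)]
  calc A.ncard * d ^ (2 * n) ≤ (∏ p ∈ Ps, (B p).card) * (2 * (N / d ^ 2 + 1)) ^ n * d ^ (2 * n) := by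
        rw [← h2]
        exact Nat.mul_le_mul_right _ h1
    _ = (∏ p ∈ Ps, (B p).card) * (2 * (d ^ 2 * (N / d ^ 2 + 1))) ^ n := by
        rw [pow_mul]
        rw [mul_assoc, ← mul_pow]
        congr 2
        ring
    _ ≤ _ := by
        refine Nat.mul_le_mul_left _ (Nat.pow_le_pow_left ?_ n)
        refine Nat.mul_le_mul_left _ ?_
        rw [mul_add, mul_one]
        exact Nat.add_le_add_right (Nat.mul_div_le N _) _

/-- the number of exceptional translates -/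
theorem count3 {n : ℕ} {T : Type} {F : T → MForm ℤ n} {m : ℕ} (hF : GenInf F m) {ε : ℝ}
    (hε : 0 < ε) : ∃ C : ℝ, 0 < C ∧ ∀ d : ℕ, Squarefree d → ∀ a : ℤ, a ≠ 0 → (d : ℤ) ∣ a →
      ∀ N : ℕ, (({b : Fin n → ℤ | (∀ i, |b i| ≤ N) ∧ ¬ Good F m a b}.ncard : ℕ) : ℝ) ≤
        C * (d : ℝ) ^ (-1 / 2 + ε) * (N + (d : ℝ) ^ 2) ^ n := by
  classical
  obtain ⟨D₀, P₀, hres⟩ := resid hF
  obtain ⟨C, hC, hSS⟩ := card_SS (ε / 2) (by positivity)
  -- the large primes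
  obtain ⟨P₁, hP₁⟩ : ∃ P₁ : ℕ, ∀ p : ℕ, P₁ < p → D₀ * (C + 1) ≤ (p : ℝ) ^ (ε / 2) := by
    have h1 : Filter.Tendsto (fun p : ℕ => (p : ℝ) ^ (ε / 2)) Filter.atTop Filter.atTop :=
      (tendsto_rpow_atTop (by positivity)).comp tendsto_natCast_atTop_atTop
    obtain ⟨P₁, h3⟩ := Filter.eventually_atTop.1 (h1.eventually (Filter.eventually_ge_atTop
      (D₀ * (C + 1))))
    exact ⟨P₁, fun p hp => h3 p hp.le⟩
  set P := max P₀ P₁ with hP
  set E : ℕ := ∏ p ∈ (range (P + 1)).filter Nat.Prime, p with hE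
  have hE0 : 0 < E := prod_pos fun p hp => ((mem_filter.1 hp).2).pos
  have hE1 : (1 : ℝ) ≤ E := by exact_mod_cast hE0
  refine ⟨2 ^ n * E, by positivity, ?_⟩
  intro d hd a ha hda N
  set A : Set (Fin n → ℤ) := {b | (∀ i, |b i| ≤ N) ∧ ¬ Good F m a b} with hA
  set Ps : Finset ℕ := d.primeFactors.filter fun p => P < p with hPs
  have hpr : ∀ p ∈ Ps, p.Prime := fun p hp => Nat.prime_of_mem_primeFactors (mem_filter.1 hp).1
  have hB : ∀ p : ℕ, ∃ B : Finset ((Fin n → ZMod p) × (Fin n → ZMod p)), p ∈ Ps →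
      ((B.card : ℝ) ≤ (p : ℝ) ^ (-1 / 2 + ε) * (p : ℝ) ^ (2 * n)) ∧
      ∀ b : Fin n → ℤ, ¬ Good F m a b → rsd p b ∈ B := by
    intro p
    by_cases hp : p ∈ Ps
    · have hpp := hpr p hp
      rw [hPs, mem_filter] at hp
      have hp0 : P₀ < p := lt_of_le_of_lt (le_max_left _ _) hp.2
      have hp1 : P₁ < p := lt_of_le_of_lt (le_max_right _ _) hp.2
      have hpd : (p : ℤ) ∣ a :=
        (Int.natCast_dvd_natCast.2 (Nat.dvd_of_mem_primeFactors hp.1)).trans hda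
      obtain ⟨B, hB1, hB2⟩ := hres p hpp hp0 ⌊C * (p : ℝ) ^ (1 / 2 + ε / 2)⌋₊
        (fun s => Nat.le_floor (hSS p hpp s).2) a ha hpd
      refine ⟨B, fun _ => ⟨?_, hB2⟩⟩
      have hp1' : (1 : ℝ) ≤ p := by exact_mod_cast hpp.one_lt.le
      have hp0' : (0 : ℝ) < p := by linarith
      have h1 : (B.card : ℝ) * p ≤
          D₀ * ((⌊C * (p : ℝ) ^ (1 / 2 + ε / 2)⌋₊ : ℝ) + 1) * (p : ℝ) ^ (2 * n) := by
        exact_mod_cast hB1
      have h4 : ((⌊C * (p : ℝ) ^ (1 / 2 + ε / 2)⌋₊ : ℝ)) + 1 ≤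
          (C + 1) * (p : ℝ) ^ (1 / 2 + ε / 2) := by
        have h5 := Nat.floor_le (a := C * (p : ℝ) ^ (1 / 2 + ε / 2)) (by positivity)
        have h6 : (1 : ℝ) ≤ (p : ℝ) ^ (1 / 2 + ε / 2) := Real.one_le_rpow hp1' (by positivity)
        linarith
      have h5 : (p : ℝ) ^ (ε / 2) * (p : ℝ) ^ (1 / 2 + ε / 2) = (p : ℝ) ^ (-1 / 2 + ε) * p := by
        rw [← Real.rpow_add hp0']
        nth_rw 3 [← Real.rpow_one (p : ℝ)]
        rw [← Real.rpow_add hp0']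
        congr 1
        ring
      refine le_of_mul_le_mul_right (h1.trans ?_) hp0'
      calc _ ≤ D₀ * ((C + 1) * (p : ℝ) ^ (1 / 2 + ε / 2)) * (p : ℝ) ^ (2 * n) := by gcongr
        _ = (D₀ * (C + 1)) * (p : ℝ) ^ (1 / 2 + ε / 2) * (p : ℝ) ^ (2 * n) := by ring
        _ ≤ (p : ℝ) ^ (ε / 2) * (p : ℝ) ^ (1 / 2 + ε / 2) * (p : ℝ) ^ (2 * n) := by
            have := hP₁ p hp1
            gcongr
        _ = _ := by
            rw [h5]
            ring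
    · exact ⟨∅, fun h => absurd h hp⟩
  choose B hB using hB
  obtain ⟨-, h1⟩ := card_box' hpr B N A (fun b hb => ⟨hb.1, fun p hp => (hB p hp).2 b hb.2⟩)
  set e : ℕ := ∏ p ∈ Ps, p with he
  have he0 : 0 < e := prod_pos fun p hp => (hpr p hp).pos
  have her : (0 : ℝ) < e := by exact_mod_cast he0
  have hde : d = e * ∏ p ∈ d.primeFactors.filter (fun p => ¬ P < p), p := by
    rw [he, hPs, prod_filter_mul_prod_filter_not, Nat.prod_primeFactors_of_squarefree hd]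
  have hd0 : 0 < d := Nat.pos_of_ne_zero hd.ne_zero
  have hdr : (0 : ℝ) < d := by exact_mod_cast hd0
  have hed : e ≤ d := Nat.le_of_dvd hd0 (hde ▸ dvd_mul_right _ _)
  have hdE : d ≤ e * E := by
    have h2 : (∏ p ∈ d.primeFactors.filter (fun p => ¬ P < p), p) ≤ E := by
      refine Nat.le_of_dvd hE0 (prod_dvd_prod_of_subset _ _ _ fun p hp => ?_)
      rw [mem_filter] at hp
      rw [mem_filter, mem_range]
      exact ⟨by omega, Nat.prime_of_mem_primeFactors hp.1⟩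
    calc d = _ := hde
      _ ≤ _ := Nat.mul_le_mul_left _ h2
  have h2 : (∏ p ∈ Ps, ((B p).card : ℝ)) ≤ (e : ℝ) ^ (-1 / 2 + ε) * (e : ℝ) ^ (2 * n) := by
    calc _ ≤ ∏ p ∈ Ps, ((p : ℝ) ^ (-1 / 2 + ε) * (p : ℝ) ^ (2 * n)) :=
          prod_le_prod (fun _ _ => Nat.cast_nonneg _) fun p hp => (hB p hp).1
      _ = _ := by
          rw [prod_mul_distrib, he]
          push_cast
          rw [Real.finsetProd_rpow _ _ (fun p _ => Nat.cast_nonneg _), prod_pow]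
  have h3 : (A.ncard : ℝ) * (e : ℝ) ^ (2 * n) ≤
      ((e : ℝ) ^ (-1 / 2 + ε) * (2 * (N + (e : ℝ) ^ 2)) ^ n) * (e : ℝ) ^ (2 * n) := by
    have h4 : (A.ncard : ℝ) * (e : ℝ) ^ (2 * n) ≤
        (∏ p ∈ Ps, ((B p).card : ℝ)) * (2 * (N + (e : ℝ) ^ 2)) ^ n := by exact_mod_cast h1
    calc _ ≤ _ := h4
      _ ≤ ((e : ℝ) ^ (-1 / 2 + ε) * (e : ℝ) ^ (2 * n)) * (2 * (N + (e : ℝ) ^ 2)) ^ n := by gcongr
      _ = _ := by ring
  have h4 := le_of_mul_le_mul_right h3 (pow_pos her _)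
  have h5 : (e : ℝ) ^ (-1 / 2 + ε) ≤ E * (d : ℝ) ^ (-1 / 2 + ε) := by
    rcases le_total 0 (-1 / 2 + ε) with h | h
    · have h6 : (e : ℝ) ^ (-1 / 2 + ε) ≤ (d : ℝ) ^ (-1 / 2 + ε) :=
        Real.rpow_le_rpow her.le (by exact_mod_cast hed) h
      have h7 : (0 : ℝ) ≤ (d : ℝ) ^ (-1 / 2 + ε) := by positivity
      nlinarith
    · have h6 : ((e : ℝ) * E) ^ (-1 / 2 + ε) ≤ (d : ℝ) ^ (-1 / 2 + ε) :=
        Real.rpow_le_rpow_of_nonpos hdr (by exact_mod_cast hdE) h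
      have h7 : (E : ℝ)⁻¹ ≤ (E : ℝ) ^ (-1 / 2 + ε) := by
        rw [← Real.rpow_neg_one]
        exact Real.rpow_le_rpow_of_exponent_le hE1 (by linarith)
      rw [Real.mul_rpow her.le (by positivity)] at h6
      have h8 : (e : ℝ) ^ (-1 / 2 + ε) * (E : ℝ)⁻¹ ≤ (d : ℝ) ^ (-1 / 2 + ε) :=
        (mul_le_mul_of_nonneg_left h7 (by positivity)).trans h6
      rw [← div_eq_mul_inv, div_le_iff₀ (by linarith)] at h8
      linarith
  calc (A.ncard : ℝ) ≤ _ := h4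
    _ ≤ (E * (d : ℝ) ^ (-1 / 2 + ε)) * (2 * (N + (d : ℝ) ^ 2)) ^ n := by
        have h6 : (e : ℝ) ≤ d := by exact_mod_cast hed
        gcongr
    _ = _ := by
        rw [mul_pow]
        ring

end Pool.Agent.H22.IA
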