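import Pool.Agent.H22.IA.Near
import Pool.Graph.R_pool_sql_team_3845a38e.H12.DivisorBound

/-!
The number of the singular moduli which are fixed by a matrix of determinant `p` and given trace.
-/

set_option autoImplicit false

namespace Pool.Agent.H22.IA

open UpperHalfPlane H294ZP Function Pool.Agent.N135.ZO

/-- the values at the points fixed by a matrix of determinant `p` and of trace `± t` -/
def SS (p : ℕ) (t : ℕ) : Set ℂ :=
  {z | ∃ (τ : ℍ) (M : M2), M.det = p ∧ N135.ZO.Rel M τ τ ∧ M.trace.natAbs = t ∧ jj τ = z}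

/-- the quadratic equation of a fixed point -/
theorem fix_quad {τ : ℍ} {M : M2} (h : N135.ZO.Rel M τ τ) :
    (M 1 0 : ℂ) * (τ : ℂ) ^ 2 + ((M 1 1 - M 0 0 : ℤ) : ℂ) * τ + ((-M 0 1 : ℤ) : ℂ) = 0 := by
  unfold N135.ZO.Rel den N135.ZO.num at h
  push_cast
  linear_combination h

theorem not_sq {p : ℕ} (hp : p.Prime) (s : ℕ) : s ^ 2 ≠ p := by
  intro hs
  rcases hp.eq_one_or_self_of_dvd s (hs ▸ dvd_pow_self s two_ne_zero) with h | h
  · rw [h] at hs
    exact hp.one_lt.ne (by simpa using hs)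
  · rw [h] at hs
    have := hp.one_lt
    nlinarith

theorem fix_ne {p : ℕ} (hp : p.Prime) {τ : ℍ} {M : M2} (hdet : M.det = p)
    (h : N135.ZO.Rel M τ τ) : M 1 0 ≠ 0 := by
  intro h0
  have h1 := fix_quad h
  rw [h0, Int.cast_zero, zero_mul, zero_add] at h1
  have h2 := congrArg Complex.im h1
  simp only [Complex.add_im, Complex.mul_im, Complex.intCast_re, Complex.intCast_im, zero_mul,
    add_zero, Complex.zero_im] at h2
  have h3 : M 1 1 - M 0 0 = 0 := by
    have := (mul_eq_zero.1 h2).resolve_right τ.im_pos.ne'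
    exact_mod_cast this
  rw [det_eq, h0, mul_zero, sub_zero, sub_eq_zero.1 h3] at hdet
  have h4 : (M 0 0).natAbs ^ 2 = p := by
    have : ((M 0 0).natAbs : ℤ) ^ 2 = p := by
      rw [Int.natAbs_sq]
      rw [sq]
      exact hdet
    exact_mod_cast this
  exact not_sq hp _ h4

theorem trace_lt {p : ℕ} (hp : p.Prime) {τ : ℍ} {M : M2} (hdet : M.det = p)
    (h : N135.ZO.Rel M τ τ) : M.trace ^ 2 < 4 * p := by
  have h1 := H610.disc_pos τ _ _ _ (fix_ne hp hdet h) (fix_quad h)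
  rw [det_eq] at hdet
  rw [Matrix.trace_fin_two]
  nlinarith

/-- the fixed points are isolated -/
theorem exists_reduced {p t : ℕ} (hp : p.Prime) {z : ℂ} (hz : z ∈ SS p t) :
    ∃ (τ : ℍ) (u c e : ℤ), 0 < c ∧ |u| ≤ c ∧ c ^ 2 ≤ 2 * p ∧ 4 * c * e = u ^ 2 + (4 * p - t ^ 2) ∧
      0 < e ∧ τ.re = u / (2 * c) ∧ τ.im = Real.sqrt (4 * p - t ^ 2) / (2 * c) ∧ jj τ = z := by
  obtain ⟨τ₀, M₀, hdet₀, hrel₀, htr₀, rfl⟩ := hz
  obtain ⟨g, hg⟩ := ModularGroup.exists_smul_mem_fd τ₀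
  set τ := g • τ₀ with hτ
  have hgrel : N135.ZO.Rel (g : M2) τ₀ τ := by
    unfold N135.ZO.Rel
    have h1 := coe_specialLinearGroup_apply g τ₀
    have h2 : den (g : M2) τ₀ ≠ 0 := den_ne (by rw [g.det_coe]; norm_num) τ₀
    rw [hτ, h1]
    unfold den at h2 ⊢
    unfold N135.ZO.num
    simp only [eq_intCast, Complex.ofReal_intCast] at h2 ⊢
    exact div_mul_cancel₀ _ h2
  have hgdet : ((g : M2)).det = 1 := g.det_coe
  -- the conjugate matrix
  have h1 : N135.ZO.Rel ((g : M2) * M₀ * (g : M2).adjugate) τ τ := by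
    have := (rel_adj hgrel).mul (hrel₀.mul hgrel)
    exact this
  have hdet1 : ((g : M2) * M₀ * (g : M2).adjugate).det = p := by
    rw [Matrix.det_mul, Matrix.det_mul, det_adj, hgdet, hdet₀, one_mul, mul_one]
  have htr1 : ((g : M2) * M₀ * (g : M2).adjugate).trace = M₀.trace := by
    rw [Matrix.trace_mul_comm, ← mul_assoc, Matrix.adjugate_mul, hgdet, one_smul, one_mul]
  -- a matrix with positive lower left entry
  obtain ⟨M, hdet, hrel, htr, hpos⟩ : ∃ M : M2, M.det = p ∧ N135.ZO.Rel M τ τ ∧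
      M.trace.natAbs = t ∧ 0 < M 1 0 := by
    rcases lt_or_gt_of_ne (fix_ne hp hdet1 h1) with h | h
    · refine ⟨-((g : M2) * M₀ * (g : M2).adjugate), ?_, ?_, ?_, ?_⟩
      · rw [Matrix.det_neg, hdet1]
        simp
      · unfold N135.ZO.Rel den N135.ZO.num at h1 ⊢
        simp only [Matrix.neg_apply]
        push_cast
        linear_combination -h1
      · rw [Matrix.trace_neg, htr1, Int.natAbs_neg]
        exact htr₀
      · rw [Matrix.neg_apply]
        omega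
    · exact ⟨_, hdet1, h1, by rw [htr1]; exact htr₀, h⟩
  have hlt := trace_lt hp hdet hrel
  have htt : M.trace ^ 2 = (t : ℤ) ^ 2 := by
    rw [← htr, Int.natAbs_sq]
  rw [htt] at hlt
  have hq := fix_quad hrel
  rw [det_eq] at hdet
  have htr2 : (M 0 0 + M 1 1) ^ 2 = (t : ℤ) ^ 2 := by
    rw [← htt, Matrix.trace_fin_two]
  generalize M 1 0 = c at hq hdet hpos
  generalize M 0 0 = a at hq hdet htr2
  generalize M 0 1 = b at hq hdet
  generalize M 1 1 = d at hq hdet htr2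
  have hy := τ.im_pos
  have hre := congrArg Complex.re hq
  have him := congrArg Complex.im hq
  have e1 : (τ : ℂ).re = τ.re := rfl
  have e2 : (τ : ℂ).im = τ.im := rfl
  simp only [Complex.add_im, Complex.add_re, Complex.mul_im, Complex.mul_re, Complex.intCast_re,
    Complex.intCast_im, zero_mul, add_zero, sub_zero, Complex.zero_im, Complex.zero_re, sq, e1, e2]
    at hre him
  push_cast at hre him
  set x := τ.re with hx
  set y := τ.im with hy'
  have hcR : (0 : ℝ) < c := by exact_mod_cast hpos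
  have hxe : 2 * c * x = a - d := by
    have h3 : y * (2 * c * x + (d - a)) = 0 := by linear_combination him
    have h4 := (mul_eq_zero.1 h3).resolve_left hy.ne'
    linarith
  have hdetR : (a : ℝ) * d - b * c = p := by exact_mod_cast hdet
  have htrR : ((a : ℝ) + d) ^ 2 = (t : ℝ) ^ 2 := by exact_mod_cast htr2
  have hye : (2 * c * y) ^ 2 = 4 * p - (t : ℝ) ^ 2 := by
    have h3 : (2 * c * y) ^ 2 = (2 * c * x) ^ 2 + 4 * c * ((d - a) * x - b) := by
      linear_combination (-4 * (c : ℝ)) * hre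
    rw [h3, ← htrR, ← hdetR]
    have h4 : 4 * c * ((d - a) * x - b) = 2 * (d - a) * (2 * c * x) - 4 * b * c := by ring
    rw [h4, hxe]
    ring
  obtain ⟨hn, hre2⟩ := hg
  rw [Complex.normSq_apply, e1, e2] at hn
  have hu : |a - d| ≤ c := by
    have h3 : |(a : ℝ) - d| ≤ c := by
      rw [← hxe, abs_mul, abs_of_pos (by positivity : (0 : ℝ) < 2 * c)]
      have : |x| ≤ 1 / 2 := hre2
      nlinarith
    have h4 : ((|a - d| : ℤ) : ℝ) ≤ (c : ℝ) := by
      push_cast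
      exact h3
    exact_mod_cast h4
  have hcc : c ^ 2 ≤ 2 * p := by
    have h3 : 4 * (c : ℝ) ^ 2 ≤ (2 * c * x) ^ 2 + (2 * c * y) ^ 2 := by
      have : (2 * c * x) ^ 2 + (2 * c * y) ^ 2 = 4 * (c : ℝ) ^ 2 * (x * x + y * y) := by ring
      rw [this]
      have h4 : (0 : ℝ) ≤ 4 * (c : ℝ) ^ 2 := by positivity
      nlinarith
    rw [hye, hxe] at h3
    have h5 : ((a : ℝ) - d) ^ 2 ≤ (c : ℝ) ^ 2 := by
      have h6 : ((a - d : ℤ)) ^ 2 ≤ c ^ 2 := by
        rw [← sq_abs (a - d)]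
        exact pow_le_pow_left₀ (abs_nonneg _) hu 2
      exact_mod_cast h6
    have h7 : (c : ℝ) ^ 2 ≤ 2 * p := by nlinarith [sq_nonneg (t : ℝ)]
    exact_mod_cast h7
  have hbe : 4 * c * (-b) = (a - d) ^ 2 + (4 * p - t ^ 2) := by
    rw [← hdet, ← htr2]
    ring
  refine ⟨τ, a - d, c, -b, hpos, hu, hcc, hbe, ?_, ?_, ?_, N135.ZO.Rel.jj hgdet hgrel⟩
  · have h3 : 0 < 4 * c * (-b) := by
      rw [hbe]
      nlinarith [sq_nonneg (a - d)]
    by_contra hcon
    push Not at hcon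
    nlinarith
  · rw [eq_div_iff (by positivity)]
    push_cast
    linarith
  · rw [eq_div_iff (by positivity), ← hye, Real.sqrt_sq (by positivity)]
    ring

/-- the values at the reduced points -/
noncomputable def cand (p t : ℕ) (u : ℤ) (c : ℕ) : ℂ :=
  (jj ∘ ofComplex) ⟨(u : ℝ) / (2 * c), Real.sqrt (4 * p - t ^ 2) / (2 * c)⟩

open Classical in
theorem SS_subset {p : ℕ} (hp : p.Prime) (t : ℕ) :
    SS p t ⊆ (Finset.Icc (-(Nat.sqrt (2 * p) : ℤ)) (Nat.sqrt (2 * p))).biUnion (fun u : ℤ =>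
      (((u ^ 2 + (4 * p - t ^ 2)) / 4).toNat.divisors).image (cand p t u)) := by
  intro z hz
  obtain ⟨τ, u, c, e, hc, hu, hcc, he, he0, hre, him, hz⟩ := exists_reduced hp hz
  have hcs : c ≤ Nat.sqrt (2 * p) := by
    have h1 : c.toNat ≤ Nat.sqrt (2 * p) := by
      rw [Nat.le_sqrt']
      have h2 : ((c.toNat : ℤ)) ^ 2 ≤ 2 * p := by
        rw [Int.toNat_of_nonneg hc.le]
        exact hcc
      exact_mod_cast h2
    have h2 : (c.toNat : ℤ) ≤ Nat.sqrt (2 * p) := by exact_mod_cast h1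
    rwa [Int.toNat_of_nonneg hc.le] at h2
  have hu' := abs_le.1 hu
  rw [Finset.mem_coe, Finset.mem_biUnion]
  refine ⟨u, ?_, ?_⟩
  · rw [Finset.mem_Icc]
    omega
  rw [Finset.mem_image]
  refine ⟨c.toNat, ?_, ?_⟩
  · have h3 : (u ^ 2 + (4 * p - t ^ 2)) / 4 = c * e := by
      rw [← he]
      rw [mul_assoc, Int.mul_ediv_cancel_left _ (by norm_num)]
    rw [h3, Nat.mem_divisors, Int.toNat_mul hc.le he0.le]
    refine ⟨dvd_mul_right _ _, ?_⟩
    have h4 : 0 < c.toNat := by omega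
    have h5 : 0 < e.toNat := by omega
    positivity
  · rw [← hz]
    unfold cand
    simp only [comp]
    congr 1
    have h4 : ((c.toNat : ℕ) : ℝ) = (c : ℝ) := by
      have : ((c.toNat : ℤ) : ℝ) = (c : ℝ) := by rw [Int.toNat_of_nonneg hc.le]
      exact_mod_cast this
    rw [h4, ← hre, ← him]
    have h5 : (⟨τ.re, τ.im⟩ : ℂ) = (τ : ℂ) := rfl
    rw [h5, ofComplex_apply]

/-- the number of the values -/
theorem card_SS (δ : ℝ) (hδ : 0 < δ) : ∃ C : ℝ, 0 < C ∧ ∀ p : ℕ, p.Prime → ∀ t : ℕ,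
    (SS p t).Finite ∧ ((SS p t).ncard : ℝ) ≤ C * (p : ℝ) ^ (1 / 2 + δ) := by
  classical
  obtain ⟨C, hC1, hC⟩ := Pool.Agent.H12.DivisorBound.card_divisors_le_rpow δ hδ
  refine ⟨4 * C * 2 ^ δ, by positivity, fun p hp t => ?_⟩
  have hsub := SS_subset hp t
  refine ⟨(Finset.finite_toSet _).subset hsub, ?_⟩
  have h1 := (Set.ncard_le_ncard hsub (Finset.finite_toSet _)).trans_eq (Set.ncard_coe_finset _)
  have hp1 : (1 : ℝ) ≤ p := by exact_mod_cast hp.one_lt.le
  have hpr : (0 : ℝ) < p := by linarith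
  have h2 : ∀ u ∈ Finset.Icc (-(Nat.sqrt (2 * p) : ℤ)) (Nat.sqrt (2 * p)),
      ((((u ^ 2 + (4 * p - t ^ 2)) / 4).toNat.divisors.image (cand p t u)).card : ℝ) ≤
        C * (2 * p : ℝ) ^ δ := by
    intro u hu
    rw [Finset.mem_Icc] at hu
    refine (Nat.cast_le.2 Finset.card_image_le).trans ?_
    by_cases h0 : ((u ^ 2 + (4 * p - t ^ 2)) / 4).toNat = 0
    · rw [h0, Nat.divisors_zero]
      simp only [Finset.card_empty, Nat.cast_zero]
      positivity
    refine (hC _ h0).trans (mul_le_mul_of_nonneg_left ?_ (by linarith))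
    refine Real.rpow_le_rpow (by positivity) ?_ hδ.le
    have h3 : u ^ 2 ≤ 2 * p := by
      have h4 : |u| ≤ Nat.sqrt (2 * p) := abs_le.2 hu
      have h5 : u ^ 2 ≤ (Nat.sqrt (2 * p) : ℤ) ^ 2 := by
        rw [← sq_abs]
        exact pow_le_pow_left₀ (abs_nonneg _) h4 2
      have h6 : (Nat.sqrt (2 * p)) ^ 2 ≤ 2 * p := Nat.sqrt_le' _
      have h7 : ((Nat.sqrt (2 * p) : ℤ)) ^ 2 ≤ 2 * p := by exact_mod_cast h6
      linarith
    have h4 : ((u ^ 2 + (4 * p - t ^ 2)) / 4).toNat ≤ 2 * p := by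
      have : (u ^ 2 + (4 * p - t ^ 2)) / 4 ≤ 2 * p := by
        have := sq_nonneg (t : ℤ)
        omega
      omega
    exact_mod_cast h4
  have h3 : (((Finset.Icc (-(Nat.sqrt (2 * p) : ℤ)) (Nat.sqrt (2 * p))).biUnion (fun u : ℤ =>
      (((u ^ 2 + (4 * p - t ^ 2)) / 4).toNat.divisors).image (cand p t u))).card : ℝ) ≤
      (2 * Nat.sqrt (2 * p) + 1) * (C * (2 * p : ℝ) ^ δ) := by
    refine (Nat.cast_le.2 Finset.card_biUnion_le).trans ?_
    push_cast
    refine (Finset.sum_le_card_nsmul _ _ _ h2).trans_eq ?_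
    rw [nsmul_eq_mul, Int.card_Icc]
    congr 1
    have : ((Nat.sqrt (2 * p) : ℤ) + 1 - (-(Nat.sqrt (2 * p) : ℤ))).toNat = 2 * Nat.sqrt (2 * p) + 1 := by
      omega
    rw [this]
    push_cast
    ring
  have h4 : (2 * Nat.sqrt (2 * p) + 1 : ℝ) ≤ 4 * (p : ℝ) ^ (1 / 2 : ℝ) := by
    have h5 : ((Nat.sqrt (2 * p) : ℕ) : ℝ) ≤ Real.sqrt (2 * p) := by
      have := Real.nat_sqrt_le_real_sqrt (a := 2 * p)
      push_cast at this
      exact this
    rw [← Real.sqrt_eq_rpow]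
    have h6 : Real.sqrt (2 * p) = Real.sqrt 2 * Real.sqrt p := Real.sqrt_mul (by norm_num) _
    have h7 : Real.sqrt 2 ≤ 3 / 2 := by
      rw [Real.sqrt_le_left (by norm_num)]
      norm_num
    have h8 : 1 ≤ Real.sqrt p := by
      rw [Real.one_le_sqrt]
      exact hp1
    nlinarith
  calc ((SS p t).ncard : ℝ) ≤ _ := by exact_mod_cast h1
    _ ≤ _ := h3
    _ ≤ 4 * (p : ℝ) ^ (1 / 2 : ℝ) * (C * (2 * p : ℝ) ^ δ) :=
        mul_le_mul_of_nonneg_right h4 (by positivity)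
    _ = 4 * C * 2 ^ δ * (p : ℝ) ^ (1 / 2 + δ) := by
        rw [Real.rpow_add hpr, Real.mul_rpow (by norm_num) hpr.le]
        ring

end Pool.Agent.H22.IA
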