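import Pool.Graph.R_pool_sql_team_seeded_63374d34.N101.ZP.Inj
import Pool.Graph.R_pool_sql_team_seeded_47a924f7.T6.H15.MZ.J
import Pool.Graph.R_pool_sql_team_seeded_3dad9d7b.NH30.KF.Fam

/-!
Every integer is congruent to a singular modulus which is fixed by a matrix of determinant `p`.
-/

set_option autoImplicit false

namespace Pool.Agent.H22.IA

open UpperHalfPlane H294ZP Function Polynomial Pool.Agent.N135.ZO

open H294ZP.H610 in
/-- the polynomial whose roots are the values at the points fixed by matrices of determinant `N` -/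
theorem exists_diag {N : ℕ} (hN : 0 < N) (hns : ∀ s : ℕ, s ^ 2 ≠ N) :
    ∃ (ι : Type) (_ : Fintype ι) (a d : ι → ℕ) (b : ι → ℤ) (h : ι → ℍ → ℍ) (P : ℂ[X]) (U' : ℂ),
      (∀ k, 0 < a k ∧ 0 < d k ∧ a k * d k = N) ∧
      (∀ k τ, (h k τ : ℂ) * d k = a k * τ + b k) ∧
      Nonempty ι ∧ (∀ τ, ∏ k, (jj τ - jj (h k τ)) = P.eval (jj τ)) ∧
      IsIntegral ℤ P.leadingCoeff ∧ IsIntegral ℤ U' ∧ P.leadingCoeff * U' = 1 := by
  classical
  have hA : TA := ⟨ta1.1, ta1.2, ta2⟩
  have hC : TC := tc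
  have hB : TB := TBproof.tb hA hC
  obtain ⟨ι, _, _, a', d', b', h, had, hh, hperm, hall⟩ := TF676.tf ta1.1 N hN
  have hjN : Lau N N 1 jj := by
    have := lau_reindex hN hA.2.2
    rwa [mul_one] at this
  have hfac : ∀ k : ι, ∃ (m : ℕ) (u : ℂ), U1 u ∧ Lau N m u (fun w => jj w - jj (h k w)) := by
    intro k
    obtain ⟨h1, h2, h3⟩ := had k
    have h4 := (hC.2.2.2.2 hA.2.1 hA.2.2 (a' k) (d' k) (b' k) h1 h2 (h k) (hh k)).1
    rw [h3] at h4
    refine H294ZP.H610.factor hC hN (n := a' k ^ 2) (hns _) hjN ?_ h4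
    refine ⟨lau_int h4, Complex.exp (2 * Real.pi * Complex.I * (b' k) / (d' k)), ?_,
      exp_int _ _ h2⟩
    rw [← Complex.exp_add, neg_add_cancel, Complex.exp_zero]
  choose m u hu hm using hfac
  set D : ℍ → ℂ := fun w => ∏ k, (jj w - jj (h k w)) with hD
  have hDinv : Inv D := by
    intro p q r s hdet' w w' hw
    obtain ⟨σ, hσ⟩ := hperm p q r s hdet' w w' hw
    simp only [hD]
    rw [← Equiv.prod_comp σ (fun k => (jj w - jj (h k w)))]
    apply Finset.prod_congr rfl
    intro k _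
    rw [hσ k, hA.1 p q r s hdet' w w' hw]
  have hDhol : Hol D := by
    apply hol_prod
    intro k
    obtain ⟨h1, h2, h3⟩ := had k
    exact hol_sub hA.2.1 (hC.2.2.2.2 hA.2.1 hA.2.2 (a' k) (d' k) (b' k) h1 h2 (h k) (hh k)).2
  obtain ⟨hU, hL⟩ := lau_prod hC hN Finset.univ (fun k w => jj w - jj (h k w)) m u hu hm
  set M := ∑ k, m k with hM
  set U := ∏ k, u k with hUdef
  obtain ⟨P, hPi, hPe, hdvd, hdeg, hlead⟩ := hB N hN M U D hDinv hDhol hL
  obtain ⟨hUi, V, hUV, hVi⟩ := hU
  have hU0 : U ≠ 0 := by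
    intro h0; rw [h0, zero_mul] at hUV; exact zero_ne_one hUV
  have hlead' := hlead (hdvd hU0)
  have hdeg' : P.natDegree = M / N := by
    refine le_antisymm hdeg (le_natDegree_of_ne_zero ?_)
    rw [hlead']
    exact hU0
  have hlc : P.leadingCoeff = U := by
    rw [leadingCoeff, hdeg', hlead']
  refine ⟨ι, inferInstance, a', d', b', h, P, V, had, hh, ?_, hPe, hlc ▸ hUi, hVi, by rw [hlc]; exact hUV⟩
  obtain ⟨τ0⟩ : Nonempty ℍ := inferInstance
  obtain ⟨w, hw⟩ := exists_rel (M := !![(N : ℤ), 0; 0, 1]) (by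
    rw [Matrix.det_fin_two_of]; simp; exact hN) τ0
  obtain ⟨k, -⟩ := hall N 0 0 1 (by ring) τ0 w (by
    have h1 := hw
    simp only [N135.ZO.Rel, den, N135.ZO.num, Matrix.of_apply, Matrix.cons_val', Matrix.cons_val_zero,
      Matrix.cons_val_one, Matrix.cons_val_fin_one] at h1
    exact_mod_cast h1)
  exact ⟨k⟩

/-- Every integer is congruent, modulo every place above `p`, to a singular modulus which is fixed
by an integral matrix of determinant `p`. -/
theorem exists_root {p : ℕ} (hp : p.Prime) {V : ValuationSubring ℂ}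
    (hpV : V.valuation (p : ℂ) < 1) (b : ℤ) :
    ∃ (τ : ℍ) (M : M2), M.det = p ∧ N135.ZO.Rel M τ τ ∧ V.valuation ((b : ℂ) - jj τ) < 1 := by
  classical
  have _ : Fact p.Prime := ⟨hp⟩
  have hns : ∀ s : ℕ, s ^ 2 ≠ p := by
    intro s hs
    rcases hp.eq_one_or_self_of_dvd s (hs ▸ dvd_pow_self s two_ne_zero) with h | h
    · rw [h] at hs
      exact hp.one_lt.ne (by simpa using hs)
    · rw [h] at hs
      have := hp.one_lt
      nlinarith
  obtain ⟨ι, _, a, d, c, h, P, U', had, hh, ⟨k₀⟩, hP, hU, hU', hUU⟩ := exists_diag hp.pos hns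
  have hint : ∀ z : ℂ, IsIntegral ℤ z → V.valuation z ≤ 1 := by
    intro z hz
    rw [V.valuation_le_one_iff]
    have h1 : IsIntegral V z := hz.tower_top
    obtain ⟨y, hy⟩ := IsIntegrallyClosed.isIntegral_iff.1 h1
    rw [← hy]
    exact y.2
  have hlead : V.valuation P.leadingCoeff = 1 := by
    have h1 := congrArg V.valuation hUU
    rw [map_mul, map_one] at h1
    refine le_antisymm (hint _ hU) ?_
    rw [← h1]
    calc V.valuation P.leadingCoeff * V.valuation U' ≤ V.valuation P.leadingCoeff * 1 :=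
          mul_le_mul_right (hint _ hU') _
      _ = _ := mul_one _
  obtain ⟨τ₀, hτ₀⟩ := Pool.Agent.T6.H15.MZ.jj_surjective (b : ℂ)
  have hbV : (b : ℂ) ∈ V := intCast_mem V b
  have hjV : ∀ k, jj (h k τ₀) ∈ V := by
    intro k
    have hrel : N135.ZO.Rel !![(a k : ℤ), c k; 0, (d k : ℤ)] τ₀ (h k τ₀) := by
      have := hh k τ₀
      simp only [N135.ZO.Rel, den, N135.ZO.num, Matrix.of_apply, Matrix.cons_val', Matrix.cons_val_zero,
        Matrix.cons_val_one, Matrix.cons_val_fin_one]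
      push_cast
      rw [← this]
      ring
    refine rel_mem ?_ hrel (by rw [hτ₀]; exact hbV)
    rw [Matrix.det_fin_two_of, mul_zero, sub_zero]
    have h1 := (had k).1
    have h2 := (had k).2.1
    positivity
  -- the congruence of Kronecker
  have hk : V.valuation ((b : ℂ) - jj (h k₀ τ₀)) < 1 := by
    have h1 := Pool.Agent.NH30.KF.kronecker p τ₀ (h k₀ τ₀) (a k₀) (c k₀) 0 (d k₀)
      (by have := (had k₀).2.2; push_cast; rw [mul_zero, sub_zero]; exact_mod_cast this)
      (by have := hh k₀ τ₀; push_cast; rw [← this]; ring)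
    have h2 : IsIntegral ℤ ((jj (h k₀ τ₀) - jj τ₀ ^ p) * (jj (h k₀ τ₀) ^ p - jj τ₀) / p) := by
      have h3 : IsIntegral ℤ (jj τ₀) := by rw [hτ₀]; exact isIntegral_algebraMap (x := b)
      have h4 : Algebra.IsIntegral ℤ (Algebra.adjoin ℤ {jj τ₀}) := by
        refine Algebra.IsIntegral.adjoin ?_
        intro x hx
        rw [Set.mem_singleton_iff.1 hx]
        exact h3
      exact isIntegral_trans _ h1
    have h5 := hint _ h2
    have hpne : V.valuation (p : ℂ) ≠ 0 := by
      rw [Valuation.ne_zero_iff]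
      exact_mod_cast hp.ne_zero
    rw [map_div₀, div_le_one₀ (zero_lt_iff.2 hpne), hτ₀] at h5
    set z := jj (h k₀ τ₀) with hz
    obtain ⟨e, he⟩ : ∃ e : ℤ, b ^ p = b + p * e := by
      have h6 : ((b ^ p - b : ℤ) : ZMod p) = 0 := by
        push_cast
        rw [ZMod.pow_card, sub_self]
      obtain ⟨e, he⟩ := (ZMod.intCast_zmod_eq_zero_iff_dvd _ _).1 h6
      exact ⟨e, by linarith⟩
    have he' : (b : ℂ) ^ p = b + p * e := by exact_mod_cast congrArg (fun t : ℤ => (t : ℂ)) he
    have h6 : V.valuation (z - (b : ℂ) ^ p) < 1 ∨ V.valuation (z ^ p - b) < 1 := by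
      by_contra hcon
      push Not at hcon
      rw [map_mul] at h5
      have h7 : (1 : V.ValueGroup) ≤ V.valuation (z - (b : ℂ) ^ p) * V.valuation (z ^ p - b) :=
        calc (1 : V.ValueGroup) = 1 * 1 := (mul_one _).symm
          _ ≤ _ := mul_le_mul' hcon.1 hcon.2
      exact absurd (lt_of_le_of_lt h5 hpV) (not_lt.2 h7)
    rcases h6 with h6 | h6
    · have h7 : (b : ℂ) - z = -(z - (b : ℂ) ^ p) + p * (-(e : ℂ)) := by
        rw [he']
        ring
      rw [h7]
      refine Valuation.map_add_lt _ ?_ (lt_mul_mem hpV (V.neg_mem _ (intCast_mem V e)))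
      rw [Valuation.map_neg]
      exact h6
    · -- `(z - b)^p ≡ z^p - b^p`
      obtain ⟨r, hr⟩ := exists_add_pow_prime_eq hp (⟨(b : ℂ), hbV⟩ : V)
        (⟨z, hjV k₀⟩ - ⟨(b : ℂ), hbV⟩)
      have h7 : (z - b) ^ p = (z ^ p - b) + p * (-(e : ℂ) - b * (z - b) * r) := by
        have h8 := congrArg (fun w : V => (w : ℂ)) hr
        push_cast at h8
        rw [add_sub_cancel] at h8
        rw [he'] at h8
        linear_combination -h8
      have h8 : V.valuation ((z - b) ^ p) < 1 := by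
        rw [h7]
        refine Valuation.map_add_lt _ h6 (lt_mul_mem hpV ?_)
        exact sub_mem (V.neg_mem _ (intCast_mem V e)) (mul_mem (mul_mem hbV
          (sub_mem (hjV k₀) hbV)) r.2)
      rw [map_pow] at h8
      have h9 : V.valuation (z - b) < 1 := by
        by_contra hcon
        push Not at hcon
        exact absurd h8 (not_lt.2 (one_le_pow_of_one_le' hcon p))
      rwa [← Valuation.map_neg, neg_sub] at h9
  -- the value of the polynomial
  have hprod : V.valuation (P.eval (b : ℂ)) < 1 := by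
    rw [← hτ₀, ← hP τ₀, map_prod, hτ₀, ← Finset.mul_prod_erase _ _ (Finset.mem_univ k₀)]
    calc _ ≤ V.valuation ((b : ℂ) - jj (h k₀ τ₀)) * 1 := by
          refine mul_le_mul_right (Finset.prod_le_one' fun k _ => ?_) _
          exact (V.valuation_le_one_iff _).2 (sub_mem hbV (hjV k))
      _ < 1 := by rw [mul_one]; exact hk
  have hsplit := IsAlgClosed.splits P
  have hroot : ∃ r ∈ P.roots, V.valuation ((b : ℂ) - r) < 1 := by
    by_contra hcon
    push Not at hcon
    rw [hsplit.eval_eq_prod_roots, map_mul, hlead, one_mul, map_multiset_prod, Multiset.map_map] at hprod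
    have : (1 : V.ValueGroup) ≤ (P.roots.map (V.valuation ∘ fun r => (b : ℂ) - r)).prod := by
      refine Multiset.one_le_prod_of_one_le ?_
      intro x hx
      obtain ⟨r, hr, rfl⟩ := Multiset.mem_map.1 hx
      exact hcon r hr
    exact absurd hprod (not_lt.2 this)
  obtain ⟨r, hr, hbr⟩ := hroot
  obtain ⟨τ, rfl⟩ := Pool.Agent.T6.H15.MZ.jj_surjective r
  have h1 : P.eval (jj τ) = 0 := (mem_roots'.1 hr).2
  rw [← hP τ] at h1
  obtain ⟨k, -, hk1⟩ := Finset.prod_eq_zero_iff.1 h1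
  obtain ⟨A, hA, hArel⟩ := Pool.Agent.N101.ZP.jj_inj (sub_eq_zero.1 hk1).symm
  have hrel : N135.ZO.Rel !![(a k : ℤ), c k; 0, (d k : ℤ)] τ (h k τ) := by
    have := hh k τ
    simp only [N135.ZO.Rel, den, N135.ZO.num, Matrix.of_apply, Matrix.cons_val', Matrix.cons_val_zero,
      Matrix.cons_val_one, Matrix.cons_val_fin_one]
    push_cast
    rw [← this]
    ring
  refine ⟨τ, A * !![(a k : ℤ), c k; 0, (d k : ℤ)], ?_, hrel.mul hArel, hbr⟩
  rw [Matrix.det_mul, hA, one_mul, Matrix.det_fin_two_of, mul_zero, sub_zero]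
  exact_mod_cast (had k).2.2

end Pool.Agent.H22.IA
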