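import Pool.Agent.H22.IA.Cnt

/-!
The number of the exceptional translates.
-/

set_option autoImplicit false

namespace Pool.Agent.H22.IA

open H294ZP Pool.Agent.N135.ZO Finset

/-- `b + a V` has no atypical intersections -/
def Good {n : ℕ} {T : Type} (F : T → MForm ℤ n) (m : ℕ) (a : ℤ) (b : Fin n → ℤ) : Prop :=
  ∀ (r : ℕ) (Z : SpecialDatum n r) (x : Fin n → ℂ), x ∈ Z.locus → ∀ y : Fin n → ℂ,
    (∀ t, (F t).eval (Int.castRingHom ℂ) y (fun _ => 1) = 0) →
    (∀ i, x i = b i + a * y i) →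
    ∀ W : Finset (Fin n), AlgebraicIndependent ℚ (fun i : W => x i) → n + W.card ≤ m + r

theorem resid {n : ℕ} {T : Type} {F : T → MForm ℤ n} {m : ℕ} (hF : GenInf F m) :
    ∃ D₀ P₀ : ℕ, ∀ p : ℕ, p.Prime → P₀ < p → ∀ S : ℕ, (∀ s, (SS p s).ncard ≤ S) →
      ∀ a : ℤ, a ≠ 0 → (p : ℤ) ∣ a →
      ∃ B : Finset ((Fin n → ZMod p) × (Fin n → ZMod p)), B.card * p ≤ D₀ * (S + 1) * p ^ (2 * n) ∧
        ∀ b : Fin n → ℤ, ¬ Good F m a b →
          ((fun i => ((b i : ℤ) : ZMod p), fun i => ((b i / p : ℤ) : ZMod p)) :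
            (Fin n → ZMod p) × (Fin n → ZMod p)) ∈ B := by
  classical
  obtain ⟨R, hR0, hR⟩ := exists_R hF
  set R' : MvPolynomial (Fin n) ℤ := R * ∏ i, MvPolynomial.X i with hR'
  have hR'0 : R' ≠ 0 := mul_ne_zero hR0 (Finset.prod_ne_zero_iff.2 fun i _ => MvPolynomial.X_ne_zero i)
  obtain ⟨μ, hμ⟩ := MvPolynomial.ne_zero_iff.1 hR'0
  refine ⟨3 * n + n * n * 81 + ∑ i, R'.degreeOf i, max 5 (R'.coeff μ).natAbs, ?_⟩
  intro p hp hP₀ S hS a ha hpa
  have _ : Fact p.Prime := ⟨hp⟩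
  have _ : NeZero p := ⟨hp.ne_zero⟩
  have h5 : 5 ≤ p := ((le_max_left _ _).trans_lt hP₀).le
  have hμp : ¬ (p : ℤ) ∣ R'.coeff μ := by
    intro h
    have h1 := Int.natAbs_dvd_natAbs.2 h
    rw [Int.natAbs_natCast] at h1
    have h2 := Nat.le_of_dvd (Int.natAbs_pos.2 hμ) h1
    exact absurd ((le_max_right _ _).trans_lt hP₀) (not_lt.2 h2)
  obtain ⟨k₀, _, _, κ, t, ht1, ht2, hmain⟩ := exists_data hp h5
  -- the unit
  obtain ⟨u, hu, hau⟩ : ∃ u : ℤ, ¬ (p : ℤ) ∣ u ∧ (a = p * u ∨ (p : ℤ) ^ 2 ∣ a) := by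
    by_cases h : (p : ℤ) ^ 2 ∣ a
    · refine ⟨1, ?_, Or.inr h⟩
      intro h1
      have := Int.le_of_dvd one_pos h1
      have h5' : (5 : ℤ) ≤ p := by exact_mod_cast h5
      omega
    · obtain ⟨u, rfl⟩ := hpa
      refine ⟨u, ?_, Or.inl rfl⟩
      rintro ⟨w, rfl⟩
      exact h ⟨w, by ring⟩
  have hu0 : (u : k₀) ≠ 0 := by
    rw [Ne, CharP.intCast_eq_zero_iff k₀ p]
    exact hu
  let φ := ZMod.castHom (dvd_refl p) k₀
  -- the sets
  let B1 : Fin n → Finset (Fin n → ZMod p) := fun i => univ.filter fun β => β i = 0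
  let B2 : Fin n → Finset (Fin n → ZMod p) := fun i => univ.filter fun β => β i = 1728
  let B3 : Fin n → Finset (Fin n → ZMod p) := fun i => univ.filter fun β => t (β i) = 0
  let B4 : Fin n × Fin n → Finset (Fin n → ZMod p) := fun ij => univ.filter fun β =>
    ij.1 ≠ ij.2 ∧ IsSquare ((4 * (p : ℤ) - t (β ij.1) ^ 2) * (4 * p - t (β ij.2) ^ 2))
  let B5 : (Fin n → ZMod p) → Finset (Fin n → ZMod p) := fun β => univ.filter fun e =>
    MvPolynomial.aeval (fun i => (κ (β i) + φ (e i)) / (u : k₀)) R' = 0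
  have hfib : ∀ s, (univ.filter fun y : ZMod p => t y = s).card ≤ S := by
    intro s
    have h1 := (ht2 s).trans (hS s)
    rwa [← Set.ncard_coe_finset, Finset.coe_filter, show {x | x ∈ univ ∧ t x = s} = {β | t β = s} by
      ext; simp]
  have c1 : ∀ i, (B1 i).card * p ≤ 1 * p ^ n := by
    intro i
    refine card_fiber i _ fun β => ?_
    refine (card_le_card (t := {0}) fun y hy => ?_).trans_eq (card_singleton _)
    rw [mem_filter, Function.update_self] at hy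
    rw [mem_singleton]
    exact hy.2
  have c2 : ∀ i, (B2 i).card * p ≤ 1 * p ^ n := by
    intro i
    refine card_fiber i _ fun β => ?_
    refine (card_le_card (t := {1728}) fun y hy => ?_).trans_eq (card_singleton _)
    rw [mem_filter, Function.update_self] at hy
    rw [mem_singleton]
    exact hy.2
  have c3 : ∀ i, (B3 i).card * p ≤ S * p ^ n := by
    intro i
    refine card_fiber i _ fun β => ?_
    refine le_trans (card_le_card fun y hy => ?_) (hfib 0)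
    rw [mem_filter, Function.update_self] at hy
    rw [mem_filter]
    exact hy
  have c4 : ∀ ij, (B4 ij).card * p ≤ (81 * S) * p ^ n := by
    intro ij
    refine card_fiber ij.2 _ fun β => ?_
    by_cases hij : ij.1 = ij.2
    · refine le_trans (card_eq_zero.2 ?_).le (Nat.zero_le _)
      rw [filter_eq_empty_iff]
      intro y _ h
      exact h.1 hij
    obtain ⟨E, hE1, hE2⟩ := class_card hp (t (β ij.1)) (ht1 _)
    have h1 : (univ.filter fun y : ZMod p => ij.1 ≠ ij.2 ∧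
        IsSquare ((4 * (p : ℤ) - t (Function.update β ij.2 y ij.1) ^ 2) *
          (4 * p - t (Function.update β ij.2 y ij.2) ^ 2))) ⊆
        E.biUnion fun s => univ.filter fun y : ZMod p => t y = s := by
      intro y hy
      rw [mem_filter, Function.update_self, Function.update_of_ne hij] at hy
      rw [mem_biUnion]
      exact ⟨t y, hE2 _ (ht1 y) hy.2.2, by simp⟩
    calc _ ≤ _ := card_le_card h1
      _ ≤ ∑ s ∈ E, (univ.filter fun y : ZMod p => t y = s).card := card_biUnion_le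
      _ ≤ ∑ s ∈ E, S := sum_le_sum fun s _ => hfib s
      _ = E.card * S := by rw [sum_const, smul_eq_mul]
      _ ≤ 81 * S := Nat.mul_le_mul_right _ hE1
  have c5 : ∀ β, (B5 β).card * p ≤ (∑ i, R'.degreeOf i) * p ^ n := fun β =>
    sz hμp (fun i => κ (β i)) hu0
  let B : Finset ((Fin n → ZMod p) × (Fin n → ZMod p)) :=
    ((univ.biUnion B1 ∪ univ.biUnion B2 ∪ univ.biUnion B3 ∪ univ.biUnion B4) ×ˢ univ) ∪
      (univ : Finset (Fin n → ZMod p)).biUnion fun β => {β} ×ˢ B5 β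
  refine ⟨B, ?_, ?_⟩
  · have hpn : Fintype.card (Fin n → ZMod p) = p ^ n := by
      rw [Fintype.card_pi]
      simp [ZMod.card]
    have h1 : (univ.biUnion B1).card * p ≤ n * p ^ n := by
      calc _ ≤ (∑ i, (B1 i).card) * p := Nat.mul_le_mul_right _ card_biUnion_le
        _ = ∑ i, (B1 i).card * p := sum_mul _ _ _
        _ ≤ ∑ i : Fin n, 1 * p ^ n := sum_le_sum fun i _ => c1 i
        _ = _ := by simp
    have h2 : (univ.biUnion B2).card * p ≤ n * p ^ n := by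
      calc _ ≤ (∑ i, (B2 i).card) * p := Nat.mul_le_mul_right _ card_biUnion_le
        _ = ∑ i, (B2 i).card * p := sum_mul _ _ _
        _ ≤ ∑ i : Fin n, 1 * p ^ n := sum_le_sum fun i _ => c2 i
        _ = _ := by simp
    have h3 : (univ.biUnion B3).card * p ≤ n * (S * p ^ n) := by
      calc _ ≤ (∑ i, (B3 i).card) * p := Nat.mul_le_mul_right _ card_biUnion_le
        _ = ∑ i, (B3 i).card * p := sum_mul _ _ _
        _ ≤ ∑ i : Fin n, S * p ^ n := sum_le_sum fun i _ => c3 i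
        _ = _ := by simp
    have h4 : (univ.biUnion B4).card * p ≤ (n * n) * ((81 * S) * p ^ n) := by
      calc _ ≤ (∑ i, (B4 i).card) * p := Nat.mul_le_mul_right _ card_biUnion_le
        _ = ∑ i, (B4 i).card * p := sum_mul _ _ _
        _ ≤ ∑ i : Fin n × Fin n, (81 * S) * p ^ n := sum_le_sum fun i _ => c4 i
        _ = _ := by simp
    have h5 : ((univ : Finset (Fin n → ZMod p)).biUnion fun β => {β} ×ˢ B5 β).card * p ≤
        p ^ n * ((∑ i, R'.degreeOf i) * p ^ n) := by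
      calc _ ≤ (∑ β, (({β} : Finset (Fin n → ZMod p)) ×ˢ B5 β).card) * p :=
            Nat.mul_le_mul_right _ card_biUnion_le
        _ = ∑ β, (B5 β).card * p := by
            rw [sum_mul]
            refine sum_congr rfl fun β _ => ?_
            rw [card_product, card_singleton, one_mul]
        _ ≤ ∑ β : Fin n → ZMod p, (∑ i, R'.degreeOf i) * p ^ n := sum_le_sum fun i _ => c5 i
        _ = _ := by rw [sum_const, card_univ, hpn, smul_eq_mul]
    have h6 : B.card ≤ ((univ.biUnion B1).card + (univ.biUnion B2).card + (univ.biUnion B3).card +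
        (univ.biUnion B4).card) * p ^ n +
        ((univ : Finset (Fin n → ZMod p)).biUnion fun β => {β} ×ˢ B5 β).card := by
      refine (card_union_le _ _).trans (Nat.add_le_add_right ?_ _)
      rw [card_product, card_univ, hpn]
      refine Nat.mul_le_mul_right _ ?_
      refine (card_union_le _ _).trans (Nat.add_le_add_right ?_ _)
      refine (card_union_le _ _).trans (Nat.add_le_add_right ?_ _)
      exact card_union_le _ _
    have h7 : p ^ (2 * n) = p ^ n * p ^ n := by rw [two_mul, pow_add]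
    rw [h7]
    calc B.card * p ≤ _ := Nat.mul_le_mul_right _ h6
      _ = ((univ.biUnion B1).card * p + (univ.biUnion B2).card * p + (univ.biUnion B3).card * p +
        (univ.biUnion B4).card * p) * p ^ n +
        ((univ : Finset (Fin n → ZMod p)).biUnion fun β => {β} ×ˢ B5 β).card * p := by ring
      _ ≤ (n * p ^ n + n * p ^ n + n * (S * p ^ n) + (n * n) * ((81 * S) * p ^ n)) * p ^ n +
          p ^ n * ((∑ i, R'.degreeOf i) * p ^ n) := by gcongr
      _ = (2 * n + n * S + n * n * 81 * S + ∑ i, R'.degreeOf i) * (p ^ n * p ^ n) := by ring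
      _ ≤ _ := by
        refine Nat.mul_le_mul_right _ ?_
        nlinarith [Nat.zero_le (n * S), Nat.zero_le ((∑ i, R'.degreeOf i) * S), Nat.zero_le (n * n)]
  · intro b hb
    by_contra hcon
    apply hb
    rw [mem_union, not_or, mem_product, not_and_or] at hcon
    obtain ⟨hcon1, hcon2⟩ := hcon
    replace hcon1 := hcon1.resolve_right (fun h => h (mem_univ _))
    simp only [mem_union, mem_biUnion, mem_univ, true_and, not_or, not_exists, B1, B2, B3, B4,
      mem_filter, Prod.forall, not_and] at hcon1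
    obtain ⟨⟨⟨q1, q2⟩, q3⟩, q4⟩ := hcon1
    have q5 : MvPolynomial.aeval (fun i => (κ (b i) + ((b i / p : ℤ) : k₀)) / (u : k₀)) R' ≠ 0 := by
      intro h
      apply hcon2
      rw [mem_biUnion]
      refine ⟨fun i => (b i : ZMod p), mem_univ _, ?_⟩
      rw [mem_product, mem_singleton]
      refine ⟨rfl, ?_⟩
      rw [mem_filter]
      refine ⟨mem_univ _, ?_⟩
      simpa only [φ, map_intCast] using h
    rw [hR', map_mul, map_prod] at q5
    obtain ⟨q6, q7⟩ := mul_ne_zero_iff.1 q5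
    rw [Finset.prod_ne_zero_iff] at q7
    intro r Z x hxZ y hy hxy W hW
    refine hmain n T F m R hR a ha hpa u hu hau b q1 q2 q3 ?_ q6 ?_ r Z x hxZ y hy hxy W hW
    · intro i j hij
      exact q4 i j hij
    · intro i h
      apply q7 i (mem_univ _)
      rw [MvPolynomial.aeval_X, h, zero_div]

/-- the number of exceptional translates -/
theorem count1 {n : ℕ} {T : Type} {F : T → MForm ℤ n} {m : ℕ} (hF : GenInf F m) {ε : ℝ}
    (hε : 0 < ε) : ∃ C : ℝ, 0 < C ∧ ∀ p : ℕ, p.Prime → ∀ a : ℤ, a ≠ 0 → (p : ℤ) ∣ a → ∀ N : ℕ,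
      (({b : Fin n → ℤ | (∀ i, |b i| ≤ N) ∧ ¬ Good F m a b}.ncard : ℕ) : ℝ) ≤
        C * (p : ℝ) ^ (-1 / 2 + ε) * (N + (p : ℝ) ^ 2) ^ n := by
  classical
  obtain ⟨D₀, P₀, hres⟩ := resid hF
  obtain ⟨C, hC, hSS⟩ := card_SS ε hε
  refine ⟨2 ^ n * (P₀ + 1) + D₀ * (C + 1) * 2 ^ n, by positivity, ?_⟩
  intro p hp a ha hpa N
  have _ : NeZero p := ⟨hp.ne_zero⟩
  have hp1 : (1 : ℝ) ≤ p := by exact_mod_cast hp.one_lt.le
  have hpr : (0 : ℝ) < p := by linarith
  have hpp : (0 : ℝ) < (p : ℝ) ^ (-1 / 2 + ε) := Real.rpow_pos_of_pos hpr _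
  have hNp : (0 : ℝ) ≤ (N + (p : ℝ) ^ 2) ^ n := by positivity
  set A : Set (Fin n → ℤ) := {b | (∀ i, |b i| ≤ N) ∧ ¬ Good F m a b} with hA
  by_cases hP : p ≤ P₀
  · have h1 : A.ncard ≤ (2 * (N + p ^ 2)) ^ n := by
      have h2 := (card_box (univ : Finset ((Fin n → ZMod p) × (Fin n → ZMod p))) N A
        (fun b hb => ⟨hb.1, mem_univ _⟩)).2
      have h3 : (univ : Finset ((Fin n → ZMod p) × (Fin n → ZMod p))).card = p ^ (2 * n) := by
        rw [card_univ, Fintype.card_prod, Fintype.card_pi, two_mul, pow_add]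
        simp [ZMod.card]
      rw [h3, mul_comm] at h2
      exact Nat.le_of_mul_le_mul_left h2 (pow_pos hp.pos _)
    have h2 : (A.ncard : ℝ) ≤ 2 ^ n * (N + (p : ℝ) ^ 2) ^ n := by
      rw [← mul_pow]
      exact_mod_cast h1
    have h3 : (1 : ℝ) ≤ (P₀ + 1) * (p : ℝ) ^ (-1 / 2 + ε) := by
      have h4 : (p : ℝ) ^ (-1 : ℝ) ≤ (p : ℝ) ^ (-1 / 2 + ε) :=
        Real.rpow_le_rpow_of_exponent_le hp1 (by linarith)
      rw [Real.rpow_neg_one] at h4
      have h5 : (p : ℝ) ≤ P₀ + 1 := by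
        have : (p : ℝ) ≤ P₀ := by exact_mod_cast hP
        linarith
      calc (1 : ℝ) = p * (p : ℝ)⁻¹ := (mul_inv_cancel₀ hpr.ne').symm
        _ ≤ _ := mul_le_mul h5 h4 (by positivity) (by positivity)
    calc (A.ncard : ℝ) ≤ 2 ^ n * (N + (p : ℝ) ^ 2) ^ n := h2
      _ = 2 ^ n * 1 * (N + (p : ℝ) ^ 2) ^ n := by ring
      _ ≤ 2 ^ n * ((P₀ + 1) * (p : ℝ) ^ (-1 / 2 + ε)) * (N + (p : ℝ) ^ 2) ^ n := by gcongr
      _ = (2 ^ n * (P₀ + 1)) * (p : ℝ) ^ (-1 / 2 + ε) * (N + (p : ℝ) ^ 2) ^ n := by ring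
      _ ≤ _ := by
        refine mul_le_mul_of_nonneg_right (mul_le_mul_of_nonneg_right ?_ hpp.le) hNp
        have : (0 : ℝ) ≤ D₀ * (C + 1) * 2 ^ n := by positivity
        linarith
  · push Not at hP
    set S : ℕ := ⌊C * (p : ℝ) ^ (1 / 2 + ε)⌋₊ with hS
    have hS' : ∀ s, (SS p s).ncard ≤ S := fun s => Nat.le_floor (hSS p hp s).2
    obtain ⟨B, hB, hB'⟩ := hres p hp hP S hS' a ha hpa
    have h1 := (card_box B N A (fun b hb => ⟨hb.1, hB' b hb.2⟩)).2
    have h2 : A.ncard * p ≤ D₀ * (S + 1) * (2 * (N + p ^ 2)) ^ n := by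
      have h3 : (A.ncard * p) * p ^ (2 * n) ≤ (D₀ * (S + 1) * (2 * (N + p ^ 2)) ^ n) * p ^ (2 * n) := by
        calc (A.ncard * p) * p ^ (2 * n) = (A.ncard * p ^ (2 * n)) * p := by ring
          _ ≤ (B.card * (2 * (N + p ^ 2)) ^ n) * p := Nat.mul_le_mul_right _ h1
          _ = (B.card * p) * (2 * (N + p ^ 2)) ^ n := by ring
          _ ≤ (D₀ * (S + 1) * p ^ (2 * n)) * (2 * (N + p ^ 2)) ^ n := Nat.mul_le_mul_right _ hB
          _ = _ := by ring
      exact Nat.le_of_mul_le_mul_right h3 (pow_pos hp.pos _)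
    have h3 : (A.ncard : ℝ) * p ≤ D₀ * (S + 1) * (2 ^ n * (N + (p : ℝ) ^ 2) ^ n) := by
      rw [← mul_pow]
      exact_mod_cast h2
    have h4 : (S : ℝ) + 1 ≤ (C + 1) * (p : ℝ) ^ (1 / 2 + ε) := by
      have h5 : (S : ℝ) ≤ C * (p : ℝ) ^ (1 / 2 + ε) := Nat.floor_le (by positivity)
      have h6 : (1 : ℝ) ≤ (p : ℝ) ^ (1 / 2 + ε) := Real.one_le_rpow hp1 (by linarith)
      linarith
    have h5 : (p : ℝ) ^ (1 / 2 + ε) = (p : ℝ) ^ (-1 / 2 + ε) * p := by
      nth_rw 3 [← Real.rpow_one (p : ℝ)]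
      rw [← Real.rpow_add hpr]
      congr 1
      ring
    have h6 : (A.ncard : ℝ) * p ≤ (D₀ * ((C + 1) * (p : ℝ) ^ (-1 / 2 + ε)) *
        (2 ^ n * (N + (p : ℝ) ^ 2) ^ n)) * p := by
      calc (A.ncard : ℝ) * p ≤ _ := h3
        _ ≤ D₀ * ((C + 1) * (p : ℝ) ^ (1 / 2 + ε)) * (2 ^ n * (N + (p : ℝ) ^ 2) ^ n) := by gcongr
        _ = _ := by rw [h5]; ring
    have h7 := le_of_mul_le_mul_right h6 hpr
    calc (A.ncard : ℝ) ≤ _ := h7
      _ = (D₀ * (C + 1) * 2 ^ n) * (p : ℝ) ^ (-1 / 2 + ε) * (N + (p : ℝ) ^ 2) ^ n := by ring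
      _ ≤ _ := by
        refine mul_le_mul_of_nonneg_right (mul_le_mul_of_nonneg_right ?_ hpp.le) hNp
        have : (0 : ℝ) ≤ 2 ^ n * ((P₀ : ℝ) + 1) := by positivity
        linarith

end Pool.Agent.H22.IA
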